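import Pool.Agent.L7h99.GF.Gf
import Pool.Agent.L7h65.GF.Gf0
import Pool.Agent.L7h65.GF.Kit
import Pool.Agent.L7h65.GF.Pc
import Pool.Agent.L7h22.GF.Wi
import Pool.Agent.L7h23.GF.Asf

set_option autoImplicit false

/-!
# Project GF: the parts put together
-/

open MeasureTheory Set Filter Topology Real

namespace Pool.Agent.L7h99.GF

open Pool.Agent.L7h99.LS Pool.Agent.L7h99.SC

theorem t_TB' : S_TB := t_TB Pool.Agent.L7h65.SC.t_HOL t_PB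
  (Pool.Agent.L7h65.GF.t_PC Pool.Agent.L7h65.GF.t_KIT)

/-- The kinetic inequality with the gradient term for smooth families, in high dimension. -/
theorem core_grad (hLo : S_LOW3) (κ : ℝ) (hκ0 : 0 < κ) (hκ : κ < 1 / 4) :
    ∃ (C : ℝ) (d₀ : ℕ), 0 < C ∧ 4 ≤ d₀ ∧ ∀ d : ℕ, d₀ ≤ d →
    C * (Real.log d / d) < 1 ∧ ∀ (n : ℕ) (F : Fin n → (Fin d → ℝ) → ℝ),
    (∀ i, ContDiff ℝ 1 (F i)) → (∀ i, HasCompactSupport (F i)) → Gram1 F →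
    (1 - C * (Real.log d / d)) * LTd.Kcl d * (∫ x, den F x ^ (1 + 2 / (d:ℝ))) +
      κ / 4 * fis0 F ≤ kin F := by
  obtain ⟨C, d₀, hC, hd₀, h⟩ := Pool.Agent.L7h23.GF.t_ASF
    (Pool.Agent.L7h22.GF.t_WI (Pool.Agent.L7h65.GF.t_GF0 (gf_of t_TB' hLo)))
    (1 / 16 - κ / 4) (by linarith)
  have hlim : Tendsto (fun d : ℕ => C * (Real.log d / d)) atTop (𝓝 (C * 0)) := by
    refine Tendsto.const_mul _ ?_
    have := Real.isLittleO_log_id_atTop.tendsto_div_nhds_zero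
    exact this.comp tendsto_natCast_atTop_atTop
  rw [mul_zero] at hlim
  obtain ⟨d₁, hd₁⟩ := eventually_atTop.1 (hlim.eventually (gt_mem_nhds one_pos))
  refine ⟨C, max d₀ d₁, hC, hd₀.trans (le_max_left _ _), fun d hd => ⟨hd₁ d
    ((le_max_right _ _).trans hd), fun n F hF hFc hG => ?_⟩⟩
  have h1 := h d ((le_max_left _ _).trans hd) n F hF hFc hG
  rw [show (1:ℝ) / 16 - (1 / 16 - κ / 4) = κ / 4 by ring] at h1
  exact h1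

/-- The kinetic inequality with the gradient term for orthonormal systems. -/
theorem sys_grad (hLo : S_LOW3) (hWR : S_WRF) (κ : ℝ) (hκ0 : 0 < κ) (hκ : κ < 1 / 4) :
    ∃ (C : ℝ) (d₀ : ℕ), 0 < C ∧ 4 ≤ d₀ ∧ ∀ d : ℕ, d₀ ≤ d → C * (Real.log d / d) < 1 ∧
    ∀ (N : ℕ) (u : Fin N → (Fin d → ℝ) → ℂ) (g : Fin N → Fin d → (Fin d → ℝ) → ℂ),
    (∀ i, LTd.WGradC (u i) (g i)) →
    (∀ i j, ∫ x, (starRingEnd ℂ) (u i x) * u j x = if i = j then 1 else 0) →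
    Integrable (fun x => (∑ i, ‖u i x‖ ^ 2) ^ (1 + 2 / (d : ℝ))) ∧
    Integrable (fun x => ∑ k, (∑ i, ((starRingEnd ℂ) (u i x) * g i k x).re) ^ 2 /
      ∑ i, ‖u i x‖ ^ 2) ∧
    (1 - C * (Real.log d / d)) * LTd.Kcl d * (∫ x, (∑ i, ‖u i x‖ ^ 2) ^ (1 + 2 / (d : ℝ))) +
      κ * (∫ x, ∑ k, (∑ i, ((starRingEnd ℂ) (u i x) * g i k x).re) ^ 2 / ∑ i, ‖u i x‖ ^ 2) ≤
      ∑ i, ∑ k, ∫ x, ‖g i k x‖ ^ 2 := by
  obtain ⟨C, d₀, hC, hd₀, h⟩ := core_grad hLo κ hκ0 hκ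
  refine ⟨C, d₀, hC, hd₀, fun d hd => ⟨(h d hd).1, fun N u g hu ho => ?_⟩⟩
  have hK : 0 < LTd.Kcl d := Kcl_pos (hd₀.trans hd)
  have h1 := (h d hd).1
  exact hWR d _ κ (by omega) (mul_pos (by linarith) hK) hκ0 (h d hd).2 N u g hu ho

end Pool.Agent.L7h99.GF
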