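import Pool.Agent.L7h99.GF.Tb
import Pool.Agent.L7h99.SC.GTI

set_option autoImplicit false

/-!
# Project GF, part GF: the Golden-Thompson inequality with the Fisher information
-/

open MeasureTheory Set Filter Topology Real
open scoped ENNReal

namespace Pool.Agent.L7h99.GF

open Pool.Agent.L7h99.LS Pool.Agent.L7h99.SC

variable {d : ℕ}

theorem kf_symm (θ τ : ℝ) (b : (Fin d → ℝ) → Fin d → ℝ) (x y : Fin d → ℝ) :
    kf θ τ b x y = kf θ τ b y x := by
  unfold kf
  rw [G_symm]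
  congr 3
  have : dt (b y - b x) (y - x) = dt (b x - b y) (x - y) := by
    unfold dt
    refine Finset.sum_congr rfl fun i _ => ?_
    simp only [Pi.sub_apply]
    ring
  rw [this]
  ring

theorem kf_nonneg (θ τ : ℝ) (b : (Fin d → ℝ) → Fin d → ℝ) (x y : Fin d → ℝ) :
    0 ≤ kf θ τ b x y := mul_nonneg (G_nonneg _ _) (Real.exp_pos _).le

theorem kf_bound {τ B : ℝ} (hτ : 0 < τ) (hB : 0 ≤ B) {b : (Fin d → ℝ) → Fin d → ℝ}
    (hb : ∀ x k, |b x k| ≤ B) (x y : Fin d → ℝ) :
    kf (1 / 2) τ b x y ≤ ((√(4 * π * τ))⁻¹ * Real.exp (τ * B ^ 2)) ^ d := by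
  have h1 : kf (1 / 2) τ b x y ≤ G τ (x - y) * Real.exp (∑ k, B * |(x - y) k|) := by
    unfold kf
    refine mul_le_mul_of_nonneg_left (Real.exp_le_exp.2 ?_) (G_nonneg _ _)
    have h2 : -dt (b y - b x) (y - x) ≤ ∑ k, 2 * B * |(x - y) k| := by
      unfold dt
      rw [← Finset.sum_neg_distrib]
      refine Finset.sum_le_sum fun k _ => ?_
      have e : |(x - y) k| = |(y - x) k| := by
        simp only [Pi.sub_apply]
        exact abs_sub_comm _ _
      rw [e]
      refine (neg_le_abs _).trans ?_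
      rw [abs_mul]
      refine mul_le_mul_of_nonneg_right ?_ (abs_nonneg _)
      have := abs_sub (b y k) (b x k)
      have := hb x k
      have := hb y k
      simp only [Pi.sub_apply]
      linarith
    have h3 := dt_self_nonneg (b x)
    have h4 := dt_self_nonneg (b y)
    have h5 : 0 ≤ ∑ k, B * |(x - y) k| := Finset.sum_nonneg fun k _ =>
      mul_nonneg hB (abs_nonneg _)
    have e2 : ∑ k, 2 * B * |(x - y) k| = 2 * ∑ k, B * |(x - y) k| := by
      rw [Finset.mul_sum]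
      exact Finset.sum_congr rfl fun i _ => by ring
    rw [e2] at h2
    have h6 : 0 ≤ τ / 16 * (dt (b x) (b x) + dt (b y) (b y)) := by positivity
    nlinarith
  refine h1.trans ?_
  unfold G
  rw [Real.exp_sum, ← Finset.prod_mul_distrib]
  have h7 : ∏ i : Fin d, ((√(4 * π * τ))⁻¹ * Real.exp (-((x - y) i ^ 2 / (4 * τ))) *
      Real.exp (B * |(x - y) i|)) ≤ ∏ _i : Fin d, ((√(4 * π * τ))⁻¹ * Real.exp (τ * B ^ 2)) := by
    refine Finset.prod_le_prod (fun i _ => by positivity) fun i _ => ?_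
    rw [mul_assoc, ← Real.exp_add]
    refine mul_le_mul_of_nonneg_left (Real.exp_le_exp.2 ?_) (by positivity)
    set z := (x - y) i
    have e : τ * B ^ 2 - (-(z ^ 2 / (4 * τ)) + B * |z|) = (|z| - 2 * τ * B) ^ 2 / (4 * τ) := by
      rw [← sq_abs z]
      field_simp
      ring
    have : 0 ≤ (|z| - 2 * τ * B) ^ 2 / (4 * τ) := by positivity
    linarith
  refine h7.trans (le_of_eq ?_)
  rw [Finset.prod_const, Finset.card_univ, Fintype.card_fin]

theorem bb_cont {n : ℕ} {f : Fin n → (Fin d → ℝ) → ℝ} (hf : ∀ i, ContDiff ℝ 1 (f i))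
    (hfc : ∀ i, HasCompactSupport (f i)) {δ : ℝ} (hδ : 0 < δ) (k : Fin d) :
    Continuous fun x => bb δ f x k := by
  have h := LTd.pd_basic (den_C1 hf) (den_supp hfc) k
  exact h.1.div ((den_C1 hf).continuous.add continuous_const) fun x => by
    have := den_nonneg f x
    positivity

theorem bb_bound {n : ℕ} {f : Fin n → (Fin d → ℝ) → ℝ} (hf : ∀ i, ContDiff ℝ 1 (f i))
    (hfc : ∀ i, HasCompactSupport (f i)) {δ : ℝ} (hδ : 0 < δ) :
    ∃ B : ℝ, 0 ≤ B ∧ ∀ x k, |bb δ f x k| ≤ B := by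
  have h : ∀ k : Fin d, ∃ B : ℝ, 0 ≤ B ∧ ∀ x, |bb δ f x k| ≤ B := by
    intro k
    have h := LTd.pd_basic (den_C1 hf) (den_supp hfc) k
    obtain ⟨C, hC⟩ := h.2.exists_bound_of_continuous h.1
    refine ⟨|C| / δ, by positivity, fun x => ?_⟩
    have h0 := den_nonneg f x
    unfold bb
    rw [abs_div, abs_of_pos (by positivity : 0 < den f x + δ)]
    refine div_le_div₀ (abs_nonneg _) ((hC x).trans (le_abs_self C)) hδ (by linarith)
  choose B hB0 hB using h
  refine ⟨∑ k, B k, Finset.sum_nonneg fun k _ => hB0 k, fun x k => (hB k x).trans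
    (Finset.single_le_sum (fun j _ => hB0 j) (Finset.mem_univ k))⟩

theorem gf_step (hTB : S_TB) (n : ℕ)
    (f : Fin n → (Fin d → ℝ) → ℝ) (hf : ∀ i, ContDiff ℝ 1 (f i))
    (hfc : ∀ i, HasCompactSupport (f i)) (hG : Gram1 f) (Ω : Set (Fin d → ℝ))
    (hΩm : MeasurableSet Ω) (hΩ : volume Ω ≠ ∞) (hf0 : ∀ i, ∀ x ∉ Ω, f i x = 0) (δ : ℝ)
    (hδ : 0 < δ) (l : ℕ) (s : ℝ) (hs : 0 < s) (S : ℝ) (hS0 : 0 ≤ S)
    (hS : S ≤ ∑ i, ∫ x, ∫ y, f i x * ((den f x + δ) ^ (s / 2 ^ (l + 1) / (2 * s)) *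
      (kf (1 / 2) (s / 2 ^ (l + 1)) (bb δ f) x y *
        (den f y + δ) ^ (s / 2 ^ (l + 1) / (2 * s))) * f i y)) :
    S ^ (2 ^ (l + 1)) ≤ (∫ x, den f x) ^ (2 ^ (l + 1) - 1) *
      ((√(4 * π * s))⁻¹ ^ d * ((∫ x, den f x) + δ * (volume Ω).toReal)) := by
  have : IsFiniteMeasure (volume.restrict Ω) := ⟨by
    rw [Measure.restrict_apply_univ]; exact lt_of_le_of_ne le_top hΩ⟩
  set τ : ℝ := s / 2 ^ (l + 1) with hτ
  have hτ0 : 0 < τ := by positivity
  have hdc : Continuous (den f) := (den_C1 hf).continuous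
  have hd0 : ∀ x, 0 ≤ den f x := den_nonneg f
  have hdi : Integrable (den f) := hdc.integrable_of_hasCompactSupport (den_supp hfc)
  obtain ⟨B, hB0, hB⟩ := bb_bound hf hfc hδ
  have hbm : Measurable (bb δ f) := measurable_pi_lambda _ fun k => (bb_cont hf hfc hδ k).measurable
  set r : ℝ := τ / (2 * s) with hr
  have hr0 : 0 ≤ r := by positivity
  set c : (Fin d → ℝ) → ℝ := fun x => (den f x + δ) ^ r with hc
  have hcc : Continuous c := (hdc.add continuous_const).rpow_const fun x => Or.inr hr0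
  have hc0 : ∀ x, 0 ≤ c x := fun x => Real.rpow_nonneg (by linarith [hd0 x]) _
  choose C hC0 hC' using fun i => bd_of_cont (hf i).continuous (hfc i)
  have hdle : ∀ x, den f x ≤ ∑ i, C i ^ 2 := fun x => Finset.sum_le_sum fun i _ =>
    sq_le_sq' (by linarith [neg_abs_le (f i x), (hC' i).le x]) ((le_abs_self _).trans ((hC' i).le x))
  set M₁ : ℝ := (∑ i, C i ^ 2 + δ) ^ r with hM₁
  have hcM : ∀ x, c x ≤ M₁ := fun x =>
    Real.rpow_le_rpow (by linarith [hd0 x]) (by linarith [hdle x]) hr0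
  set M₂ : ℝ := ((√(4 * π * τ))⁻¹ * Real.exp (τ * B ^ 2)) ^ d with hM₂
  set k : (Fin d → ℝ) → (Fin d → ℝ) → ℝ := fun x y =>
    c x * (kf (1 / 2) τ (bb δ f) x y * c y) with hk
  have hM₁0 : 0 ≤ M₁ := (hc0 0).trans (hcM 0)
  have hkfm : Measurable fun p : (Fin d → ℝ) × (Fin d → ℝ) => kf (1 / 2) τ (bb δ f) p.1 p.2 := by
    unfold kf
    have m1 : Measurable fun p : (Fin d → ℝ) × (Fin d → ℝ) => bb δ f p.1 := hbm.comp measurable_fst
    have m2 : Measurable fun p : (Fin d → ℝ) × (Fin d → ℝ) => bb δ f p.2 := hbm.comp measurable_snd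
    have m3 : Measurable fun p : (Fin d → ℝ) × (Fin d → ℝ) => G τ (p.1 - p.2) :=
      ((G_cont τ).comp (by fun_prop)).measurable
    exact m3.mul (Real.measurable_exp.comp (((((dt_meas (m2.sub m1)
      (measurable_snd.sub measurable_fst)).const_mul _)).sub (((dt_meas m1 m1).add
        (dt_meas m2 m2)).const_mul _)).const_mul _))
  have hKer : Ker k (M₁ * (M₂ * M₁)) := by
    refine ⟨?_, fun x y => ?_, fun x y => ?_, fun x y => ?_⟩
    · exact (hcc.measurable.comp measurable_fst).mul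
        (hkfm.mul (hcc.measurable.comp measurable_snd))
    · exact mul_nonneg (hc0 x) (mul_nonneg (kf_nonneg _ _ _ _ _) (hc0 y))
    · exact mul_le_mul (hcM x) (mul_le_mul (kf_bound hτ0 hB0 hB x y) (hcM y) (hc0 y)
        (by positivity)) (mul_nonneg (kf_nonneg _ _ _ _ _) (hc0 y)) hM₁0
    · simp only [hk]
      rw [kf_symm]; ring
  have hBd : ∀ i, Bd (f i) (∑ j, C j) := fun i => ⟨(hC' i).meas, fun x =>
    ((hC' i).le x).trans (Finset.single_le_sum (fun j _ => hC0 j) (Finset.mem_univ i))⟩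
  have r0 : ∀ g : (Fin d → ℝ) → ℝ, (∀ x ∉ Ω, g x = 0) → ∫ x in Ω, g x = ∫ x, g x := fun g hg =>
    setIntegral_eq_integral_of_forall_compl_eq_zero hg
  have hG' : ∀ v : Fin n → ℝ, ∫ x in Ω, (∑ i, v i * f i x) ^ 2 ≤ ∑ i, v i ^ 2 := fun v => by
    rw [r0 _ fun x hx => by simp [hf0 _ x hx]]
    exact hG v
  have hmom := moment (μ := volume.restrict Ω) l k _ hKer f _ hBd hG'
  have i1 : ∀ i, Integrable fun x => f i x ^ 2 := fun i =>
    ((hf i).continuous.pow 2).integrable_of_hasCompactSupport (by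
      have := (hfc i).mul_right (f' := f i)
      simpa only [sq] using this)
  have eΛ : ∑ i, ∫ x in Ω, f i x ^ 2 = ∫ x, den f x := by
    unfold den
    rw [integral_finsetSum _ fun i _ => i1 i]
    exact Finset.sum_congr rfl fun i _ => r0 _ fun x hx => by simp [hf0 _ x hx]
  have hΛ0 : 0 ≤ ∫ x, den f x := integral_nonneg hd0
  set Λ := ∫ x, den f x with hΛ
  set V := (volume Ω).toReal with hV
  have hV0 : 0 ≤ V := ENNReal.toReal_nonneg
  -- the trace
  have htr : T (l + 1) _ _ (volume.restrict Ω) (fun _ => 1) (fun x y => ENNReal.ofReal (k x y)) ≤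
      ENNReal.ofReal ((√(4 * π * s))⁻¹ ^ d * (Λ + δ * V)) := by
    have h := hTB d Ω hΩm (bb δ f) (fun x => den f x + δ) hbm
      ((hdc.add continuous_const).measurable) l τ hτ0
    have e1 : (fun x y => ENNReal.ofReal (k x y)) = fun x y => ENNReal.ofReal (c x) *
        (ENNReal.ofReal (kf (1 / 2) τ (bb δ f) x y) * ENNReal.ofReal (c y)) := by
      funext x y
      simp only [hk]
      rw [ENNReal.ofReal_mul (hc0 x), ENNReal.ofReal_mul (kf_nonneg _ _ _ _ _)]
    have e2 : (fun x => (1:ℝ≥0∞) * ENNReal.ofReal (c x) * ENNReal.ofReal (c x)) =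
        fun x => ENNReal.ofReal (den f x + δ) ^ (((2:ℝ) ^ (l + 1))⁻¹) := by
      funext x
      have hp : 0 < den f x + δ := by linarith [hd0 x]
      rw [one_mul, ← ENNReal.ofReal_mul (hc0 x), ENNReal.ofReal_rpow_of_pos hp]
      congr 1
      simp only [hc]
      rw [← Real.rpow_add hp]
      congr 1
      rw [hr, hτ]
      field_simp
      ring
    rw [e1, T_left (l + 1) _ _ _ (fun _ => 1) (fun x => ENNReal.ofReal (c x)),
      T_right (l + 1) _ _ _ _ (fun y => ENNReal.ofReal (c y)), e2]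
    refine h.trans (le_of_eq ?_)
    have e3 : (2:ℝ) ^ (l + 1) * τ = s := by rw [hτ]; field_simp
    have e4 : ∫⁻ x in Ω, ENNReal.ofReal (den f x + δ) = ENNReal.ofReal (Λ + δ * V) := by
      rw [← ofReal_integral_eq_lintegral_ofReal]
      · congr 1
        rw [integral_add hdi.integrableOn (integrable_const δ), r0 _ fun x hx => by
          simp [den, hf0 _ x hx], integral_const]
        simp only [smul_eq_mul, Measure.real, Measure.restrict_apply_univ]
        rw [← hΛ, ← hV]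
        ring
      · exact hdi.integrableOn.add (integrable_const δ)
      · exact Eventually.of_forall fun x => by
          have := hd0 x
          show 0 ≤ den f x + δ
          positivity
    rw [e3, e4, ← ENNReal.ofReal_mul (by positivity)]
  have hZ0 : 0 ≤ (√(4 * π * s))⁻¹ ^ d * (Λ + δ * V) := by positivity
  have hup : (∑ i', ∫ x in Ω, f i' x * AA (volume.restrict Ω) k (f i') x) ^ (2 ^ (l + 1)) ≤
      Λ ^ (2 ^ (l + 1) - 1) * ((√(4 * π * s))⁻¹ ^ d * (Λ + δ * V)) := by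
    rw [eΛ] at hmom
    have h1 := hmom.trans (mul_le_mul_right htr _)
    rw [← ENNReal.ofReal_mul (pow_nonneg hΛ0 _)] at h1
    exact (ENNReal.ofReal_le_ofReal_iff (mul_nonneg (pow_nonneg hΛ0 _) hZ0)).1 h1
  refine (pow_le_pow_left₀ hS0 (hS.trans (le_of_eq ?_)) _).trans hup
  refine Finset.sum_congr rfl fun i' _ => ?_
  rw [r0 _ fun x hx => by simp [hf0 _ x hx]]
  refine integral_congr_ae (Eventually.of_forall fun x => ?_)
  simp only [AA, hk]
  rw [r0 _ fun y hy => by simp [hf0 _ y hy], ← integral_const_mul]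

/-- The Golden-Thompson inequality with the Fisher information. -/
theorem gf_of (hTB : S_TB) (hLo : S_LOW3) : S_GF := by
  intro d n f hf hfc hG Ω hΩm hΩ hf0 hΛ δ hδ s hs
  set Λ := ∫ x, den f x with hΛd
  set V := (volume Ω).toReal with hV
  have hV0 : 0 ≤ V := ENNReal.toReal_nonneg
  set Z : ℝ := (√(4 * π * s))⁻¹ ^ d * (Λ + δ * V) with hZ
  have hΛV : 0 < Λ + δ * V := by positivity
  have hZ0 : 0 < Z := by positivity
  have hlogZ : Real.log Z = -((d:ℝ) / 2 * Real.log (4 * π * s)) + Real.log (Λ + δ * V) := by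
    rw [hZ, Real.log_mul (by positivity) hΛV.ne', Real.log_pow,
      Real.log_inv, Real.log_sqrt (by positivity)]
    ring
  set I := ∫ x, den f x * Real.log (den f x + δ) with hI
  have key : ∀ ε : ℝ, 0 < ε → s * (1 / 16 * fis δ f + 1 / s * I - kin f - ε) ≤
      Λ * (Real.log Z - Real.log Λ) := by
    intro ε hε
    refine pow_limit s _ Λ Z hΛ hZ0 ?_
    obtain ⟨τ₀, hτ₀, hlow⟩ := hLo d n f hf hfc δ s ε hδ hs hε
    have h1 : Tendsto (fun l : ℕ => s / 2 ^ (l + 1)) atTop (𝓝 0) := by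
      refine tendsto_const_nhds.div_atTop ?_
      exact (tendsto_pow_atTop_atTop_of_one_lt (by norm_num : (1:ℝ) < 2)).comp
        (tendsto_add_atTop_nat 1)
    filter_upwards [h1.eventually (gt_mem_nhds hτ₀)] with l hl hpos
    refine gf_step hTB n f hf hfc hG Ω hΩm hΩ hf0 δ hδ l s hs _ hpos ?_
    refine le_trans (le_of_eq ?_) (hlow (s / 2 ^ (l + 1)) (by positivity) hl)
    rw [← hΛd]
    ring
  have h2 : s * (1 / 16 * fis δ f + 1 / s * I - kin f) ≤ Λ * (Real.log Z - Real.log Λ) := by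
    refine le_of_forall_pos_le_add fun e he => ?_
    have := key (e / s) (by positivity)
    have e1 : s * (1 / 16 * fis δ f + 1 / s * I - kin f - e / s) =
        s * (1 / 16 * fis δ f + 1 / s * I - kin f) - e := by field_simp
    rw [e1] at this
    linarith
  rw [hlogZ] at h2
  have e2 : s * (1 / 16 * fis δ f + 1 / s * I - kin f) = s / 16 * fis δ f + I - s * kin f := by
    field_simp
  rw [e2] at h2
  linarith

end Pool.Agent.L7h99.GF
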