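import Pool.Agent.L7h99.GF.Stm
import Pool.Agent.L7h76.LS.Semi

set_option autoImplicit false

/-!
# Project GF, part PB: the drifted path kernel integrates to the heat kernel
-/

open MeasureTheory Set Filter Topology Real
open scoped ENNReal

namespace Pool.Agent.L7h99.GF

open Pool.Agent.L7h99.LS Pool.Agent.L7h99.SC

variable {d : ℕ}

theorem dt_add (a c z : Fin d → ℝ) : dt (a + c) z = dt a z + dt c z := by
  simp only [dt, Pi.add_apply, add_mul, Finset.sum_add_distrib]

theorem dt_smul (r : ℝ) (a z : Fin d → ℝ) : dt (r • a) z = r * dt a z := by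
  simp only [dt, Pi.smul_apply, smul_eq_mul, Finset.mul_sum, mul_assoc]

theorem dt_smul' (r : ℝ) (a z : Fin d → ℝ) : dt a (r • z) = r * dt a z := by
  simp only [dt, Pi.smul_apply, smul_eq_mul, Finset.mul_sum]
  exact Finset.sum_congr rfl fun i _ => by ring

theorem dt_self_nonneg (a : Fin d → ℝ) : 0 ≤ dt a a :=
  Finset.sum_nonneg fun i _ => mul_self_nonneg _

theorem dt_zero (z : Fin d → ℝ) : dt (0 : Fin d → ℝ) z = 0 := by simp [dt]

theorem dt_cont : Continuous fun p : (Fin d → ℝ) × (Fin d → ℝ) => dt p.1 p.2 := by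
  unfold dt
  fun_prop

theorem dt_meas {X : Type} [MeasurableSpace X] {f g : X → Fin d → ℝ} (hf : Measurable f)
    (hg : Measurable g) : Measurable fun x => dt (f x) (g x) :=
  dt_cont.measurable.comp (hf.prodMk hg)

/-- Completing the square. -/
theorem G_shift {t : ℝ} (ht : 0 < t) (D a : Fin d → ℝ) :
    G t D * Real.exp (1 / (2 * t) * dt a D - 1 / (4 * t) * dt a a) = G t (D - a) := by
  unfold G dt
  rw [Finset.mul_sum, Finset.mul_sum, ← Finset.sum_sub_distrib, Real.exp_sum,
    ← Finset.prod_mul_distrib]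
  refine Finset.prod_congr rfl fun i _ => ?_
  rw [mul_assoc, ← Real.exp_add]
  congr 2
  simp only [Pi.sub_apply]
  field_simp
  ring

/-- The growth of the accumulated drift. -/
theorem acc {τ j q : ℝ} (hτ : 0 < τ) (hj : 0 ≤ j) (hq : 0 ≤ q) {a c : Fin d → ℝ}
    (ha : dt a a ≤ 4 * τ * j * q) :
    dt (a + c) (a + c) ≤ 4 * τ * (j + 1) * (q + 1 / (4 * τ) * dt c c) := by
  have hc := dt_self_nonneg c
  have e : (4:ℝ) * τ * (j + 1) * (q + 1 / (4 * τ) * dt c c) =
      (j + 1) * (4 * τ * q + dt c c) := by field_simp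
  rw [e]
  rcases hj.eq_or_lt with h0 | hj0
  · have h1 : dt a a ≤ 0 := by rw [← h0] at ha; simpa using ha
    have h2 : ∀ i, a i = 0 := by
      intro i
      have h3 : a i * a i ≤ dt a a :=
        Finset.single_le_sum (f := fun i => a i * a i) (fun i _ => mul_self_nonneg _)
          (Finset.mem_univ i)
      exact mul_self_eq_zero.1 (le_antisymm (h3.trans h1) (mul_self_nonneg _))
    have h4 : a = 0 := funext h2
    rw [h4, zero_add, ← h0]
    nlinarith
  · have h1 : j * dt (a + c) (a + c) ≤ (j + 1) * (dt a a + j * dt c c) := by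
      unfold dt
      rw [Finset.mul_sum, Finset.mul_sum, ← Finset.sum_add_distrib, Finset.mul_sum]
      refine Finset.sum_le_sum fun i _ => ?_
      simp only [Pi.add_apply]
      nlinarith [sq_nonneg (a i - j * c i)]
    have h2 : j * dt (a + c) (a + c) ≤ j * ((j + 1) * (4 * τ * q + dt c c)) := by
      refine h1.trans ?_
      have : (j + 1) * (dt a a + j * dt c c) ≤ (j + 1) * (4 * τ * j * q + j * dt c c) :=
        mul_le_mul_of_nonneg_left (by linarith) (by linarith)
      linarith
    exact le_of_mul_le_mul_left h2 hj0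

/-- The weight of the end point. -/
noncomputable def Hw (t : ℝ) (D a : Fin d → ℝ) (q : ℝ) : ℝ :=
  G t D * Real.exp (-q + 1 / (2 * t) * dt a D)

theorem Hw_nonneg (t : ℝ) (D a : Fin d → ℝ) (q : ℝ) : 0 ≤ Hw t D a q :=
  mul_nonneg (G_nonneg _ _) (Real.exp_pos _).le

theorem Hw_le {t q : ℝ} (ht : 0 < t) {D a : Fin d → ℝ} (h : dt a a ≤ 4 * t * q) :
    Hw t D a q ≤ G t (D - a) := by
  rw [← G_shift ht]
  refine mul_le_mul_of_nonneg_left (Real.exp_le_exp.2 ?_) (G_nonneg _ _)
  have : 1 / (4 * t) * dt a a ≤ q := by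
    rw [one_div, inv_mul_le_iff₀ (by positivity)]
    exact h
  linarith

/-- One step absorbs the drift into the weight. -/
theorem Hw_step {m : ℕ} (hm : 1 ≤ m) {τ : ℝ} (hτ : 0 < τ) (b x z D a : Fin d → ℝ) (q : ℝ) :
    ENNReal.ofReal (Hw (m * τ) D a q) * ENNReal.ofReal (G τ (z - x - (τ / 2) • b) *
      Real.exp (-(τ / 16) * dt b b + 1 / (4 * m) * dt b D)) =
    ENNReal.ofReal (G τ (z - x - (τ / 2) • b)) *
      ENNReal.ofReal (Hw (m * τ) D (a + (τ / 2) • b)
        (q + 1 / (4 * τ) * dt ((τ / 2) • b) ((τ / 2) • b))) := by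
  have hm0 : (0:ℝ) < m := by exact_mod_cast hm
  rw [← ENNReal.ofReal_mul (Hw_nonneg _ _ _ _), ← ENNReal.ofReal_mul (G_nonneg _ _)]
  congr 1
  unfold Hw
  have e1 : (-(q + 1 / (4 * τ) * dt ((τ / 2) • b) ((τ / 2) • b)) +
      1 / (2 * (m * τ)) * dt (a + (τ / 2) • b) D) =
      (-q + 1 / (2 * (m * τ)) * dt a D) + (-(τ / 16) * dt b b + 1 / (4 * m) * dt b D) := by
    rw [dt_add, dt_smul, dt_smul, dt_smul']
    field_simp
    ring
  rw [e1, Real.exp_add (-q + 1 / (2 * (m * τ)) * dt a D)]
  ring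

theorem kx_comp {X : Type} [MeasurableSpace X] (m : ℕ) (τ : ℝ) {b : (Fin d → ℝ) → Fin d → ℝ}
    (hb : Measurable b) {ξ u v : X → Fin d → ℝ} (hξ : Measurable ξ) (hu : Measurable u)
    (hv : Measurable v) : Measurable fun w => kx m τ b (ξ w) (u w) (v w) := by
  unfold kx
  refine Measurable.ennreal_ofReal ?_
  have h1 : Measurable fun w => b (u w) := hb.comp hu
  have h2 : Measurable fun w => v w - u w - (τ / 2) • b (u w) :=
    (hv.sub hu).sub (h1.fun_const_smul (τ / 2))
  refine ((G_cont τ).measurable.comp h2).mul (Real.measurable_exp.comp ?_)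
  exact ((dt_meas h1 h1).const_mul _).add ((dt_meas h1 hξ).const_mul _)

theorem Kp_comp (m : ℕ) (τ : ℝ) {b : (Fin d → ℝ) → Fin d → ℝ} (hb : Measurable b) (k : ℕ) :
    ∀ {X : Type} [MeasurableSpace X] {ξ u v : X → Fin d → ℝ}, Measurable ξ → Measurable u →
    Measurable v → Measurable fun w => Kp volume (kx m τ b (ξ w)) k (u w) (v w) := by
  induction k with
  | zero =>
    intro X _ ξ u v hξ hu hv
    exact kx_comp m τ hb hξ hu hv
  | succ k ih =>
    intro X _ ξ u v hξ hu hv
    show Measurable fun w => ∫⁻ z, kx m τ b (ξ w) (u w) z * Kp volume (kx m τ b (ξ w)) k z (v w)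
    refine Measurable.lintegral_prod_right' (f := fun q : X × (Fin d → ℝ) =>
      kx m τ b (ξ q.1) (u q.1) q.2 * Kp volume (kx m τ b (ξ q.1)) k q.2 (v q.1)) ?_
    exact (kx_comp m τ hb (hξ.comp measurable_fst) (hu.comp measurable_fst)
      measurable_snd).mul (ih (hξ.comp measurable_fst) measurable_snd (hv.comp measurable_fst))

theorem Kp_zero' (m : ℕ) (τ : ℝ) (b : (Fin d → ℝ) → Fin d → ℝ) (ξ x y : Fin d → ℝ) :
    Kp volume (kx m τ b ξ) 0 x y = kx m τ b ξ x y := rfl

theorem Kp_succ' (m : ℕ) (τ : ℝ) (b : (Fin d → ℝ) → Fin d → ℝ) (ξ : Fin d → ℝ) (k : ℕ)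
    (x y : Fin d → ℝ) : Kp volume (kx m τ b ξ) (k + 1) x y =
      ∫⁻ z, kx m τ b ξ x z * Kp volume (kx m τ b ξ) k z y := rfl

theorem kx_step {m : ℕ} (hm : 1 ≤ m) {τ : ℝ} (hτ : 0 < τ) (b : (Fin d → ℝ) → Fin d → ℝ)
    (x z D a : Fin d → ℝ) (q : ℝ) :
    ENNReal.ofReal (Hw (m * τ) D a q) * kx m τ b D x z =
    ENNReal.ofReal (G τ (z - x - (τ / 2) • b x)) *
      ENNReal.ofReal (Hw (m * τ) D (a + (τ / 2) • b x)
        (q + 1 / (4 * τ) * dt ((τ / 2) • b x) ((τ / 2) • b x))) :=
  Hw_step hm hτ (b x) x z D a q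

/-- The first step without the cross term. -/
theorem kx_first {m : ℕ} {τ : ℝ} (hτ : 0 < τ) (b : (Fin d → ℝ) → Fin d → ℝ)
    (x y z : Fin d → ℝ) :
    ENNReal.ofReal (Real.exp (-(1 / (4 * m)) * dt (b x) (y - x))) * kx m τ b (y - x) x z ≤
      ENNReal.ofReal (G τ (z - x - (τ / 2) • b x)) := by
  have hbb := dt_self_nonneg (b x)
  unfold kx
  rw [← ENNReal.ofReal_mul (Real.exp_pos _).le]
  refine ENNReal.ofReal_le_ofReal ?_
  have e1 : Real.exp (-(1 / (4 * m)) * dt (b x) (y - x)) * (G τ (z - x - (τ / 2) • b x) *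
      Real.exp (-(τ / 16) * dt (b x) (b x) + 1 / (4 * m) * dt (b x) (y - x))) =
      G τ (z - x - (τ / 2) • b x) * Real.exp (-(τ / 16) * dt (b x) (b x)) := by
    rw [mul_left_comm, ← Real.exp_add]
    congr 2
    ring
  rw [e1]
  refine mul_le_of_le_one_right (G_nonneg _ _) ?_
  rw [Real.exp_le_one_iff]
  have : 0 ≤ τ / 16 * dt (b x) (b x) := by positivity
  linarith

attribute [local irreducible] Kp kx

theorem Hw_meas (t q : ℝ) (a x₀ : Fin d → ℝ) : Measurable fun y => Hw t (y - x₀) a q := by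
  unfold Hw
  refine ((G_cont t).measurable.comp (measurable_id.sub_const x₀)).mul
    (Real.measurable_exp.comp ?_)
  exact measurable_const.add ((dt_meas measurable_const (measurable_id.sub_const x₀)).const_mul _)

theorem conv_shift {τ σ : ℝ} (hτ : 0 < τ) (hσ : 0 < σ) (x c x₀ a : Fin d → ℝ) :
    ∫⁻ z, ENNReal.ofReal (G τ (z - x - c)) * ENNReal.ofReal (G σ (z - x₀ - (a + c))) =
      ENNReal.ofReal (G (τ + σ) (x - x₀ - a)) := by
  have h := (Pool.Agent.L7h76.LS.t_SEMI d τ σ hτ hσ (x + c) (x₀ + (a + c))).1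
  have e1 : x + c - (x₀ + (a + c)) = x - x₀ - a := by abel
  rw [e1] at h
  rw [← h]
  refine lintegral_congr fun z => ?_
  have e2 : z - x - c = z - (x + c) := by abel
  have e3 : z - x₀ - (a + c) = z - (x₀ + (a + c)) := by abel
  rw [e2, e3, G_symm τ z (x + c)]

/-- The induction. -/
theorem Q_le {m : ℕ} {τ : ℝ} {b : (Fin d → ℝ) → Fin d → ℝ} (hm : 1 ≤ m) (hτ : 0 < τ)
    (hb : Measurable b) (x₀ : Fin d → ℝ) (k : ℕ) : ∀ (j : ℕ) (x a : Fin d → ℝ) (q : ℝ),
    0 ≤ q → dt a a ≤ 4 * τ * j * q → j + (k + 1) ≤ m →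
    ∫⁻ y, ENNReal.ofReal (Hw (m * τ) (y - x₀) a q) * Kp volume (kx m τ b (y - x₀)) k x y ≤
      ENNReal.ofReal (G ((k + 1) * τ + m * τ) (x - x₀ - a)) := by
  have hm0 : (0:ℝ) < m := by exact_mod_cast hm
  have ht : 0 < m * τ := by positivity
  induction k with
  | zero =>
    intro j x a q hq ha hj
    have hj' : ((j:ℝ) + 1) ≤ m := by
      have : j + 1 ≤ m := by omega
      exact_mod_cast this
    set c : Fin d → ℝ := (τ / 2) • b x with hc
    set q' : ℝ := q + 1 / (4 * τ) * dt c c with hq'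
    have hcc := dt_self_nonneg c
    have hq'0 : 0 ≤ q' := by positivity
    have h1 := acc (c := c) hτ (Nat.cast_nonneg j) hq ha
    have h2 : dt (a + c) (a + c) ≤ 4 * (m * τ) * q' := by
      refine h1.trans ?_
      have : (4:ℝ) * τ * (j + 1) * q' ≤ 4 * τ * m * q' := by gcongr
      calc _ ≤ 4 * τ * m * q' := this
        _ = _ := by ring
    calc ∫⁻ y, ENNReal.ofReal (Hw (m * τ) (y - x₀) a q) * Kp volume (kx m τ b (y - x₀)) 0 x y
        = ∫⁻ y, ENNReal.ofReal (G τ (y - x - c)) *
            ENNReal.ofReal (Hw (m * τ) (y - x₀) (a + c) q') :=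
          lintegral_congr fun y => by rw [Kp_zero']; exact kx_step hm hτ b x y (y - x₀) a q
      _ ≤ ∫⁻ y, ENNReal.ofReal (G τ (y - x - c)) *
            ENNReal.ofReal (G (m * τ) (y - x₀ - (a + c))) :=
          lintegral_mono fun y => mul_le_mul_right (ENNReal.ofReal_le_ofReal (Hw_le ht h2)) _
      _ = _ := by
          rw [conv_shift hτ ht]
          congr 2
          push_cast; ring
  | succ k ih =>
    intro j x a q hq ha hj
    set c : Fin d → ℝ := (τ / 2) • b x with hc
    set q' : ℝ := q + 1 / (4 * τ) * dt c c with hq'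
    have hcc := dt_self_nonneg c
    have hq'0 : 0 ≤ q' := by positivity
    have h1 := acc (c := c) hτ (Nat.cast_nonneg j) hq ha
    have hm1 : Measurable fun p : (Fin d → ℝ) × (Fin d → ℝ) =>
        ENNReal.ofReal (Hw (m * τ) (p.1 - x₀) a q) * (kx m τ b (p.1 - x₀) x p.2 *
          Kp volume (kx m τ b (p.1 - x₀)) k p.2 p.1) := by
      refine ((Hw_meas (m * τ) q a x₀).ennreal_ofReal.comp measurable_fst).mul ?_
      exact (kx_comp m τ hb (measurable_fst.sub_const x₀) measurable_const measurable_snd).mul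
        (Kp_comp m τ hb k (measurable_fst.sub_const x₀) measurable_snd measurable_fst)
    calc ∫⁻ y, ENNReal.ofReal (Hw (m * τ) (y - x₀) a q) *
          Kp volume (kx m τ b (y - x₀)) (k + 1) x y
        = ∫⁻ y, ∫⁻ z, ENNReal.ofReal (Hw (m * τ) (y - x₀) a q) * (kx m τ b (y - x₀) x z *
            Kp volume (kx m τ b (y - x₀)) k z y) := by
          refine lintegral_congr fun y => ?_
          rw [Kp_succ', lintegral_const_mul]
          exact (kx_comp m τ hb measurable_const measurable_const measurable_id).mul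
            (Kp_comp m τ hb k measurable_const measurable_id measurable_const)
      _ = ∫⁻ z, ∫⁻ y, ENNReal.ofReal (Hw (m * τ) (y - x₀) a q) * (kx m τ b (y - x₀) x z *
            Kp volume (kx m τ b (y - x₀)) k z y) := lintegral_lintegral_swap hm1.aemeasurable
      _ = ∫⁻ z, ENNReal.ofReal (G τ (z - x - c)) * ∫⁻ y, ENNReal.ofReal (Hw (m * τ) (y - x₀)
            (a + c) q') * Kp volume (kx m τ b (y - x₀)) k z y := by
          refine lintegral_congr fun z => ?_
          rw [← lintegral_const_mul]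
          · refine lintegral_congr fun y => ?_
            rw [← mul_assoc, ← mul_assoc]
            congr 1
            exact kx_step hm hτ b x z (y - x₀) a q
          · exact (Hw_meas (m * τ) q' (a + c) x₀).ennreal_ofReal.mul
              (Kp_comp m τ hb k (measurable_id.sub_const x₀) measurable_const measurable_id)
      _ ≤ ∫⁻ z, ENNReal.ofReal (G τ (z - x - c)) *
            ENNReal.ofReal (G ((k + 1) * τ + m * τ) (z - x₀ - (a + c))) := by
          refine lintegral_mono fun z => mul_le_mul_right ?_ _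
          refine ih (j + 1) z (a + c) q' hq'0 ?_ (by omega)
          push_cast
          exact h1
      _ = _ := by
          rw [conv_shift hτ (by positivity)]
          congr 2
          push_cast; ring

theorem t_PB : S_PB := by
  intro d m τ b hm hτ hb x
  have hm0 : (0:ℝ) < m := by exact_mod_cast hm
  have ht : 0 < m * τ := by positivity
  set c : Fin d → ℝ := (τ / 2) • b x with hc
  have hGfin : ∀ σ : ℝ, 0 < σ → ∫⁻ z, ENNReal.ofReal (G τ (z - x - c)) *
      ENNReal.ofReal (G σ (z - x)) ≤ ENNReal.ofReal ((√(4 * π * (τ + σ)))⁻¹ ^ d) := by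
    intro σ hσ
    have h := conv_shift hτ hσ x c x (-c)
    have e1 : ∀ z : Fin d → ℝ, z - x - (-c + c) = z - x := fun z => by simp
    simp only [e1] at h
    rw [h]
    exact ENNReal.ofReal_le_ofReal (G_le (by positivity) _)
  have hE : ∀ y : Fin d → ℝ, E (m * τ) x y = ENNReal.ofReal (G (m * τ) (y - x)) := fun y => by
    unfold E; rw [G_symm]
  rcases Nat.eq_or_lt_of_le hm with h1 | h1
  · -- one step
    subst h1
    calc ∫⁻ y, PP 1 τ b x y * E ((1:ℕ) * τ) x y
        ≤ ∫⁻ y, ENNReal.ofReal (G τ (y - x - c)) * ENNReal.ofReal (G ((1:ℕ) * τ) (y - x)) := by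
          refine lintegral_mono fun y => ?_
          rw [hE]
          refine mul_le_mul_left ?_ _
          unfold PP
          rw [Kp_zero']
          exact kx_first hτ b x y y
      _ ≤ _ := (hGfin _ ht).trans (le_of_eq (by congr 5; push_cast; ring))
  · obtain ⟨k, rfl⟩ : ∃ k, m = k + 2 := ⟨m - 2, by omega⟩
    have hm1 : Measurable fun p : (Fin d → ℝ) × (Fin d → ℝ) =>
        ENNReal.ofReal (G τ (p.2 - x - c)) * (ENNReal.ofReal (G (((k + 2 : ℕ):ℝ) * τ) (p.1 - x)) *
          Kp volume (kx (k + 2) τ b (p.1 - x)) k p.2 p.1) := by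
      refine (((G_cont τ).measurable.comp ((measurable_snd.sub_const x).sub_const
        c)).ennreal_ofReal).mul ?_
      refine (((G_cont _).measurable.comp (measurable_fst.sub_const x)).ennreal_ofReal).mul ?_
      exact Kp_comp (k + 2) τ hb k (measurable_fst.sub_const x) measurable_snd measurable_fst
    calc ∫⁻ y, PP (k + 2) τ b x y * E (((k + 2 : ℕ):ℝ) * τ) x y
        ≤ ∫⁻ y, ∫⁻ z, ENNReal.ofReal (G τ (z - x - c)) *
            (ENNReal.ofReal (G (((k + 2 : ℕ):ℝ) * τ) (y - x)) *
              Kp volume (kx (k + 2) τ b (y - x)) k z y) := by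
          refine lintegral_mono fun y => ?_
          have mz : Measurable fun z => kx (k + 2) τ b (y - x) x z *
              Kp volume (kx (k + 2) τ b (y - x)) k z y :=
            (kx_comp (k + 2) τ hb measurable_const measurable_const measurable_id).mul
              (Kp_comp (k + 2) τ hb k measurable_const measurable_id measurable_const)
          unfold PP
          rw [hE, show k + 2 - 1 = k + 1 by omega, Kp_succ', ← lintegral_const_mul _ mz,
            ← lintegral_mul_const _ (mz.const_mul _)]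
          refine lintegral_mono fun z => ?_
          calc _ = (ENNReal.ofReal (Real.exp (-(1 / (4 * ((k + 2 : ℕ):ℝ))) * dt (b x) (y - x))) *
                kx (k + 2) τ b (y - x) x z) * (ENNReal.ofReal (G (((k + 2 : ℕ):ℝ) * τ) (y - x)) *
              Kp volume (kx (k + 2) τ b (y - x)) k z y) := by ring
            _ ≤ _ := mul_le_mul_left (kx_first hτ b x y z) _
      _ = ∫⁻ z, ∫⁻ y, ENNReal.ofReal (G τ (z - x - c)) *
            (ENNReal.ofReal (G (((k + 2 : ℕ):ℝ) * τ) (y - x)) *
              Kp volume (kx (k + 2) τ b (y - x)) k z y) :=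
          lintegral_lintegral_swap hm1.aemeasurable
      _ ≤ ∫⁻ z, ENNReal.ofReal (G τ (z - x - c)) *
            ENNReal.ofReal (G ((k + 1) * τ + ((k + 2 : ℕ):ℝ) * τ) (z - x)) := by
          refine lintegral_mono fun z => ?_
          rw [lintegral_const_mul]
          · refine mul_le_mul_right ?_ _
            have h := Q_le (m := k + 2) (by omega) hτ hb x k 0 z 0 0 le_rfl (by
              rw [dt_zero]; simp) (by omega)
            have e2 : ∀ y : Fin d → ℝ, Hw (((k + 2 : ℕ):ℝ) * τ) (y - x) 0 0 =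
                G (((k + 2 : ℕ):ℝ) * τ) (y - x) := fun y => by
              unfold Hw; rw [dt_zero]; simp
            simp only [e2, sub_zero] at h
            exact h
          · exact (((G_cont _).measurable.comp (measurable_id.sub_const x)).ennreal_ofReal).mul
              (Kp_comp (k + 2) τ hb k (measurable_id.sub_const x) measurable_const measurable_id)
      _ ≤ _ := (hGfin _ (by positivity)).trans (le_of_eq (by congr 5; push_cast; ring))

end Pool.Agent.L7h99.GF
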