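import Pool.Agent.L7h99.SC.Win

set_option autoImplicit false

/-!
# Project GF: Lieb-Thirring inequality with a positive gradient term in high dimension

Target (HARD anchor MP_cfe56d_mp): for every `κ < 1/4` there is `C` such that for all `d` and all
orthonormal systems in `H¹(ℝ^d; ℂ)`
`∑ ∫ |∇u_n|² ≥ (1 - C log d / d) K_d^cl ∫ ρ^(1+2/d) + κ ∫ |∇√ρ|²`.

The main new tool is a Golden-Thompson inequality with a gain LINEAR in the Fisher information: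
`s T ≥ ∫ ρ log ρ + (d/2) log(4πs) ∫ ρ + (s/4) ∫ |∇√ρ|²` for every density matrix `0 ≤ Γ ≤ 1` and
every `s > 0` (`S_GF`). Exact statements of the parts with proofs. Notation of project SC:
`G τ` heat kernel, `E τ x y = ofReal (G τ (x - y))`, `T l X μ w κ` cyclic chain of `2^l` points,
`It μ i κ` the `2^i`-fold composition, `den f = ∑ f_i²`, `kin f`, `fis δ f`, `Gram1`.
-/

open MeasureTheory Set Filter Topology Real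
open scoped ENNReal

namespace Pool.Agent.L7h99.GF

open Pool.Agent.L7h99.LS Pool.Agent.L7h99.SC

/-- The scalar product. -/
noncomputable def dt {d : ℕ} (a z : Fin d → ℝ) : ℝ := ∑ k, a k * z k

/-- The symmetric kernel
`G_τ(x - y) exp(θ (-(1/8) (b(y) - b(x))·(y - x) - (τ/16) (|b(x)|² + |b(y)|²)))`. -/
noncomputable def kf {d : ℕ} (θ τ : ℝ) (b : (Fin d → ℝ) → Fin d → ℝ) (x y : Fin d → ℝ) : ℝ :=
  G τ (x - y) * Real.exp (θ * (-(1 / 8) * dt (b y - b x) (y - x) -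
    τ / 16 * (dt (b x) (b x) + dt (b y) (b y))))

/-- The `(n+1)`-fold composition of a kernel. -/
noncomputable def Kp {X : Type} [MeasurableSpace X] (μ : Measure X) (κ : X → X → ℝ≥0∞) :
    ℕ → X → X → ℝ≥0∞
  | 0 => κ
  | n + 1 => fun x y => ∫⁻ z, κ x z * Kp μ κ n z y ∂μ

/-- The drifted kernel `G_τ(v - u - (τ/2) b(u)) exp(-(τ/16) |b(u)|² + b(u)·ξ / (4m))`. -/
noncomputable def kx {d : ℕ} (m : ℕ) (τ : ℝ) (b : (Fin d → ℝ) → Fin d → ℝ) (ξ u v : Fin d → ℝ) :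
    ℝ≥0∞ :=
  ENNReal.ofReal (G τ (v - u - (τ / 2) • b u) *
    Real.exp (-(τ / 16) * dt (b u) (b u) + 1 / (4 * m) * dt (b u) ξ))

/-- The drifted path kernel of `m` steps from `x` to `y` with the cross term `ξ = y - x`. -/
noncomputable def PP {d : ℕ} (m : ℕ) (τ : ℝ) (b : (Fin d → ℝ) → Fin d → ℝ) (x y : Fin d → ℝ) :
    ℝ≥0∞ :=
  ENNReal.ofReal (Real.exp (-(1 / (4 * m)) * dt (b x) (y - x))) *
    Kp volume (kx m τ b (y - x)) (m - 1) x y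

/-! ## Part A: the trace bound (helper99) -/

/-- [KIT] `It i κ` is the `2^i`-fold composition; from
`∫ Kp a x z * Kp b z y dz = Kp (a + b + 1) x y` (induction on `a`, Tonelli). -/
def S_KIT : Prop := ∀ (X : Type) (_ : MeasurableSpace X) (μ : Measure X) [SFinite μ]
  (κ : X → X → ℝ≥0∞), Measurable (Function.uncurry κ) → ∀ i : ℕ,
  It μ i κ = Kp μ κ (2 ^ i - 1)

/-- [PB] Put `t = m τ`, `c(u) = (τ/2) b(u)`, `D = y - x₀`. Note `b(u)·ξ/(4m) = c(u)·ξ/(2t)`. Claim by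
induction on `k` for `Q_k(x; a, q) = ∫ dy G_t(D) e^(-q + a·D/(2t)) Kp (kx D) (k-1) x y` (and
`Q_0(x; a, q) = G_t(x - x₀) e^(-q + a·(x-x₀)/(2t))`): if `|a|² ≤ 4τ j q`, `j + k ≤ m`, then
`Q_k(x; a, q) ≤ G_(kτ+t)(x - x₀ - a)`; step: `Q_(k+1)(x; a, q) = ∫ dz G_τ(z - x - c(x))
Q_k(z; a + c(x), q + (τ/16)|b(x)|²)` and `|a + c|² ≤ 4τ(j+1)(q + |c|²/(4τ))`. Finally the first step
(without the cross term) gives `G_(2t)(c(x₀)) ≤ G_(2t)(0)`. -/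
def S_PB : Prop := ∀ (d m : ℕ) (τ : ℝ) (b : (Fin d → ℝ) → Fin d → ℝ), 1 ≤ m → 0 < τ →
  Measurable b → ∀ x : Fin d → ℝ,
  ∫⁻ y, PP m τ b x y * E (m * τ) x y ≤ ENNReal.ofReal ((√(4 * π * (2 * (m * τ))))⁻¹ ^ d)

/-- [PC] For fixed `ξ`: `kf 1 (u,v) = e^(-b(u)·ξ/(8m)) (kx ξ u v)^(1/2) (kx (-ξ) v u)^(1/2)
e^(b(v)·ξ/(8m))`; Cauchy-Schwarz in the path integral and `ξ = y - x`. -/
def S_PC : Prop := ∀ (d i : ℕ) (τ : ℝ) (b : (Fin d → ℝ) → Fin d → ℝ), 0 < τ → Measurable b →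
  ∀ x y : Fin d → ℝ, It volume i (fun u v => ENNReal.ofReal (kf 1 τ b u v)) x y ≤
    PP (2 ^ i) τ b x y ^ (1 / 2 : ℝ) * PP (2 ^ i) τ b y x ^ (1 / 2 : ℝ)

/-- [TB] From [HOL] (project SC), [PB], [PC]. `T_halve` repeatedly: the chain of `2^(l+1)` points is
at most `∫∫ √w(x) √w(y) κ_l(x,y)²`, `κ_l = It l (kf (1/2)) ≤ (It l (kf 1))^(1/2) (E (2^l τ))^(1/2)`,
and `∫∫ √w(x) √w(y) (PP x y)^(1/2) (PP y x)^(1/2) E ≤ ∫∫ w(x) PP x y E`. -/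
def S_TB : Prop := ∀ (d : ℕ) (Ω : Set (Fin d → ℝ)), MeasurableSet Ω →
  ∀ (b : (Fin d → ℝ) → Fin d → ℝ) (w : (Fin d → ℝ) → ℝ), Measurable b → Measurable w →
  ∀ (l : ℕ) (τ : ℝ), 0 < τ →
  T (l + 1) _ _ (volume.restrict Ω) (fun x => ENNReal.ofReal (w x) ^ (((2:ℝ) ^ (l + 1))⁻¹))
    (fun x y => ENNReal.ofReal (kf (1 / 2) τ b x y)) ≤
  ENNReal.ofReal ((√(4 * π * (2 ^ (l + 1) * τ)))⁻¹ ^ d) * ∫⁻ x in Ω, ENNReal.ofReal (w x)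

/-! ## Part B: lower bound for small times -/

/-- `∇ log (σ + δ)`, `σ = den f`. -/
noncomputable def bb {d n : ℕ} (δ : ℝ) (f : Fin n → (Fin d → ℝ) → ℝ) (x : Fin d → ℝ) :
    Fin d → ℝ := fun k => LTd.pd k (den f) x / (den f x + δ)

/-- [LOW3] `w = σ + δ`, `g_i = w^(τ/2s) f_i`, `kf (1/2) = G_τ e^ζ` with
`ζ = -(1/16) (b(y)-b(x))·(y-x) - (τ/32)(|b(x)|²+|b(y)|²)`, `b = bb δ f` continuous with compact
support. `|e^ζ - 1 - ζ| ≤ ζ² e^|ζ|` contributes `o(τ)` (uniform continuity of `b`). Main terms: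
`Σ ∫∫ g_i G_τ g_i ≥ Σ ∫ g_i² - τ Σ ∫ |∇g_i|²` (`t_LOW`), `Σ ∫ g_i² ≥ Λ + (τ/s) ∫ σ log w`,
`Σ ∫ |∇ g_i|² → kin f`; by symmetry and `∫ z z^T G_τ(z) dz = 2τ`,
`τ⁻¹ Σ ∫∫ g_i(x) g_i(y) G_τ(x-y) (-(1/16)) (b(y)-b(x))·(y-x)
= τ⁻¹ (1/8) Σ ∫∫ g_i(x) g_i(y) G_τ(x-y) b(x)·(y-x) → (1/4) Σ ∫ f_i b·∇f_i = (1/8) fis δ f`, and the
last term of `ζ` gives `≥ -(1/16) ∫ |b|² σ ≥ -(1/16) fis δ f`. -/
def S_LOW3 : Prop := ∀ (d n : ℕ) (f : Fin n → (Fin d → ℝ) → ℝ), (∀ i, ContDiff ℝ 1 (f i)) →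
  (∀ i, HasCompactSupport (f i)) → ∀ δ s ε : ℝ, 0 < δ → 0 < s → 0 < ε →
  ∃ τ₀ : ℝ, 0 < τ₀ ∧ ∀ τ : ℝ, 0 < τ → τ < τ₀ →
    (∫ x, den f x) + τ * (1 / 16 * fis δ f + 1 / s * (∫ x, den f x * Real.log (den f x + δ)) -
      kin f - ε) ≤
      ∑ i, ∫ x, ∫ y, f i x * ((den f x + δ) ^ (τ / (2 * s)) * (kf (1 / 2) τ (bb δ f) x y *
        (den f y + δ) ^ (τ / (2 * s))) * f i y)

/-! ## Part C: the Golden-Thompson inequality with the Fisher information (helper99) -/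

/-- [GF] From [TB], [LOW3], as `SC/GTI.lean`. -/
def S_GF : Prop := ∀ (d n : ℕ) (f : Fin n → (Fin d → ℝ) → ℝ), (∀ i, ContDiff ℝ 1 (f i)) →
  (∀ i, HasCompactSupport (f i)) → Gram1 f → ∀ Ω : Set (Fin d → ℝ), MeasurableSet Ω →
  volume Ω ≠ ∞ → (∀ i, ∀ x ∉ Ω, f i x = 0) → 0 < ∫ x, den f x → ∀ δ : ℝ, 0 < δ →
  ∀ s : ℝ, 0 < s →
  s / 16 * fis δ f + (∫ x, den f x * Real.log (den f x + δ)) +
    (∫ x, den f x) * ((d : ℝ) / 2 * Real.log (4 * π * s) + Real.log (∫ x, den f x) -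
      Real.log ((∫ x, den f x) + δ * (volume Ω).toReal)) ≤ s * kin f

/-! ## Part D: windows -/

/-- The Fisher information `∫ |∇σ|²/σ` (zero where `σ = 0`). -/
noncomputable def fis0 {d n : ℕ} (f : Fin n → (Fin d → ℝ) → ℝ) : ℝ :=
  ∫ x, ∑ k, LTd.pd k (den f) x ^ 2 / den f x

/-- [GF0] `δ → 0` in [GF] (dominated convergence; `|∇σ|² ≤ 4 σ Σ|∇f_i|²`). -/
def S_GF0 : Prop := ∀ (d n : ℕ) (f : Fin n → (Fin d → ℝ) → ℝ), (∀ i, ContDiff ℝ 1 (f i)) →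
  (∀ i, HasCompactSupport (f i)) → Gram1 f → ∀ s : ℝ, 0 < s →
  s / 16 * fis0 f + (∫ x, den f x * Real.log (den f x)) +
    (∫ x, den f x) * ((d : ℝ) / 2 * Real.log (4 * π * s)) ≤ s * kin f

/-- [WI] From [GF0] with `s = d / (2 (1 + p) K A^p)`, `p = 2/d`, `K = Kcl d`, and `l1` in
`SC/Win.lean` (`(d/2) log(4πs) ≥ d/2 - 3 - 2 log d - log A`); with `y = p log(σ/A) ≤ 1`:
`σ^(1+p) ≤ A^p σ (1 + y + y²)`, and for `σ ≤ A e^ω`: `σ log(σ/A) ≥ -A`,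
`σ log²(σ/A) ≤ ω² σ + A`. -/
def S_WI : Prop := ∀ ω : ℝ, 1 ≤ ω → ∃ (C : ℝ) (d₀ : ℕ), 0 < C ∧ 4 ≤ d₀ ∧ ∀ d : ℕ, d₀ ≤ d →
  ∀ A : ℝ, 0 < A → ∀ Ω : Set (Fin d → ℝ), MeasurableSet Ω → volume Ω ≠ ∞ →
  ∀ (n : ℕ) (f : Fin n → (Fin d → ℝ) → ℝ), (∀ i, ContDiff ℝ 1 (f i)) →
  (∀ i, HasCompactSupport (f i)) → (∀ i, ∀ x ∉ Ω, f i x = 0) → Gram1 f →
  (∀ x, den f x ≤ A * Real.exp ω) →
  LTd.Kcl d * (∫ x, den f x ^ (1 + 2 / (d:ℝ))) + 1 / 16 * fis0 f ≤ kin f +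
    C * (Real.log d / d) * (LTd.Kcl d * A ^ (2 / (d:ℝ))) * ((∫ x, den f x) + A * (volume Ω).toReal)

/-- [ASF] Assembly over the windows `f_w = win_fn ω c w (ρ) F` (`Pool/Agent/L7h99/LS/Cut.lean`,
`Final.lean`, `Pool/Agent/L7h23/SC/Asm.lean` with `L = 1`), `ρ = den F`, `A_w = exp(ω(c - w))`,
`Ω_w = {|log ρ/ω - c + w| < 1}`. NEW: (i) the localization error is controlled by the Fisher
information only: in `ims`, `A + D² B/ω` with `B = P²/(ω r)`, `P = ∂_k ρ`, so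
`Σ_w kin f_w ≤ kin F + (C²/ω²) fis0 F`; (ii) `∂_k den f_w = (win² + 2 ρ win win') ∂_k ρ`, so
`Σ_w fis0 f_w ≥ ∫_{ρ ≥ r_M} Σ_k (∂_k ρ)²/ρ` for `w < M` (there `Σ (win + 2ρ win')² ≥ 1` because
`Σ win² = 1`, `Σ win win' = 0`), `→ fis0 F` as `M → ∞`; (iii) `Σ_w win^(2+2p) ≥ 1 - p`; (iv) the
errors of [WI]: `A_w^p ∫ den f_w ≤ e^(pω) ∫ win² ρ^(1+p)`, `A_w^(1+p) |Ω_w| ≤ e^((1+p)ω) ∫_{Ω_w}
ρ^(1+p)`, at most two windows at each point. Choose `ω` with `C²/ω² ≤ ε`. -/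
def S_ASF : Prop := S_WI → ∀ ε : ℝ, 0 < ε → ∃ (C : ℝ) (d₀ : ℕ), 0 < C ∧ 4 ≤ d₀ ∧ ∀ d : ℕ,
  d₀ ≤ d → ∀ (n : ℕ) (F : Fin n → (Fin d → ℝ) → ℝ), (∀ i, ContDiff ℝ 1 (F i)) →
  (∀ i, HasCompactSupport (F i)) → Gram1 F →
  (1 - C * (Real.log d / d)) * LTd.Kcl d * (∫ x, den F x ^ (1 + 2 / (d:ℝ))) +
    (1 / 16 - ε) * fis0 F ≤ kin F

/-! ## Part E: orthonormal systems in H¹ -/

/-- [WRF] As `Pool/Agent/L7h47/LS/Wrap.lean`; `H_approx` (`Helper717/LT/P_H_approx.lean`) also gives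
`pd j (F k i) x → g i j x` almost everywhere (near `x` the cutoff is one; `conv_ae` for `g i j`), and
Fatou's lemma for `∑_k (∂_k σ)²/σ`. -/
def S_WRF : Prop := ∀ (d : ℕ) (K c : ℝ), 1 ≤ d → 0 < K → 0 < c →
  (∀ (n : ℕ) (F : Fin n → (Fin d → ℝ) → ℝ), (∀ i, ContDiff ℝ 1 (F i)) →
    (∀ i, HasCompactSupport (F i)) → Gram1 F →
    K * (∫ x, den F x ^ (1 + 2 / (d:ℝ))) + c / 4 * fis0 F ≤ kin F) →
  ∀ (N : ℕ) (u : Fin N → (Fin d → ℝ) → ℂ) (g : Fin N → Fin d → (Fin d → ℝ) → ℂ),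
    (∀ i, LTd.WGradC (u i) (g i)) →
    (∀ i j, ∫ x, (starRingEnd ℂ) (u i x) * u j x = if i = j then 1 else 0) →
    Integrable (fun x => (∑ i, ‖u i x‖ ^ 2) ^ (1 + 2 / (d : ℝ))) ∧
    Integrable (fun x => ∑ k, (∑ i, ((starRingEnd ℂ) (u i x) * g i k x).re) ^ 2 /
      ∑ i, ‖u i x‖ ^ 2) ∧
    K * (∫ x, (∑ i, ‖u i x‖ ^ 2) ^ (1 + 2 / (d : ℝ))) +
      c * (∫ x, ∑ k, (∑ i, ((starRingEnd ℂ) (u i x) * g i k x).re) ^ 2 / ∑ i, ‖u i x‖ ^ 2) ≤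
      ∑ i, ∑ k, ∫ x, ‖g i k x‖ ^ 2

end Pool.Agent.L7h99.GF
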