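import Pool.Agent.L7h99.GF.Pb
import Pool.Agent.L7h65.GF.Pc
import Pool.Agent.L7h65.SC.Mix
import Pool.Agent.L7h99.SC.Trace

set_option autoImplicit false

/-!
# Project GF, part TB: the trace bound
-/

open MeasureTheory Set Filter Topology Real
open scoped ENNReal

namespace Pool.Agent.L7h99.GF

open Pool.Agent.L7h99.LS Pool.Agent.L7h99.SC

variable {d : ℕ}

theorem T_halves {X : Type} [MeasurableSpace X] (μ : Measure X) [SFinite μ]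
    {w : X → ℝ≥0∞} (hw : Measurable w)
    {κ : X → X → ℝ≥0∞} (hκ : Measurable (Function.uncurry κ)) (i : ℕ) : ∀ j : ℕ,
    T (j + i) X _ μ w κ ≤ T j X _ μ (fun x => w x ^ (2 ^ i)) (It μ i κ) := by
  induction i with
  | zero => intro j; simp only [pow_zero, pow_one]; exact le_rfl
  | succ i ih =>
    intro j
    have h1 := ih (j + 1)
    have h2 := T_halve j X _ μ (fun x => w x ^ (2 ^ i)) (It μ i κ) (hw.pow_const _)
      (It_meas μ hκ i)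
    rw [show j + (i + 1) = (j + 1) + i by ring]
    refine h1.trans (h2.trans (le_of_eq ?_))
    congr 1
    funext x
    rw [← pow_mul, pow_succ]

theorem It_restrict_le {X : Type} [MeasurableSpace X] (μ : Measure X) (Ω : Set X)
    (κ : X → X → ℝ≥0∞) (i : ℕ) : ∀ x y, It (μ.restrict Ω) i κ x y ≤ It μ i κ x y := by
  induction i with
  | zero => intro x y; exact le_rfl
  | succ i ih =>
    intro x y
    show ∫⁻ z in Ω, It (μ.restrict Ω) i κ x z * It (μ.restrict Ω) i κ z y ∂μ ≤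
      ∫⁻ z, It μ i κ x z * It μ i κ z y ∂μ
    refine (lintegral_mono fun z => mul_le_mul' (ih x z) (ih z y)).trans ?_
    exact setLIntegral_le_lintegral _ _

theorem PP_meas (m : ℕ) (τ : ℝ) {b : (Fin d → ℝ) → Fin d → ℝ} (hb : Measurable b) :
    Measurable (Function.uncurry (PP m τ b)) := by
  unfold PP
  have h1 : Measurable fun p : (Fin d → ℝ) × (Fin d → ℝ) => p.2 - p.1 :=
    measurable_snd.sub measurable_fst
  have h2 : Measurable fun p : (Fin d → ℝ) × (Fin d → ℝ) =>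
      Real.exp (-(1 / (4 * m)) * dt (b p.1) (p.2 - p.1)) :=
    Real.measurable_exp.comp ((dt_meas (hb.comp measurable_fst) h1).const_mul _)
  exact h2.ennreal_ofReal.mul (Kp_comp m τ hb (m - 1) h1 measurable_fst measurable_snd)

theorem kf_half_le (τ : ℝ) (b : (Fin d → ℝ) → Fin d → ℝ) (x y : Fin d → ℝ) :
    ENNReal.ofReal (kf (1 / 2) τ b x y) ≤
      ENNReal.ofReal (kf 1 τ b x y) ^ (1 / 2 : ℝ) * E τ x y ^ (1 - 1 / 2 : ℝ) := by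
  simp only [kf, E]
  set g := G τ (x - y) with hg
  have hg0 : 0 ≤ g := G_nonneg _ _
  set e : ℝ := -(1 / 8) * dt (b y - b x) (y - x) - τ / 16 * (dt (b x) (b x) + dt (b y) (b y))
  rw [ENNReal.ofReal_rpow_of_nonneg (mul_nonneg hg0 (Real.exp_pos _).le) (by norm_num),
    ENNReal.ofReal_rpow_of_nonneg hg0 (by norm_num),
    ← ENNReal.ofReal_mul (Real.rpow_nonneg (mul_nonneg hg0 (Real.exp_pos _).le) _)]
  refine ENNReal.ofReal_le_ofReal (le_of_eq ?_)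
  rw [Real.mul_rpow hg0 (Real.exp_pos _).le, ← Real.exp_mul]
  have e1 : g ^ (1 / 2 : ℝ) * g ^ (1 - 1 / 2 : ℝ) = g := by
    rw [show (1 - 1 / 2 : ℝ) = 1 / 2 by norm_num, ← Real.sqrt_eq_rpow, Real.mul_self_sqrt hg0]
  calc g * Real.exp (1 / 2 * e) = (g ^ (1 / 2 : ℝ) * g ^ (1 - 1 / 2 : ℝ)) *
        Real.exp (1 / 2 * e) := by rw [e1]
    _ = _ := by
      rw [show 1 * e * (1 / 2) = 1 / 2 * e by ring]
      ring

theorem half_mul (z : ℝ≥0∞) : z ^ (1 / 2 : ℝ) * z ^ (1 / 2 : ℝ) = z := by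
  rw [← ENNReal.rpow_add_of_nonneg _ _ (by norm_num) (by norm_num)]
  norm_num

theorem alg {W₁ W₂ K₁ K₂ P Q e : ℝ≥0∞}
    (h1 : K₁ ≤ (P ^ (1 / 2 : ℝ) * Q ^ (1 / 2 : ℝ)) ^ (1 / 2 : ℝ) * e ^ (1 / 2 : ℝ))
    (h2 : K₂ ≤ (Q ^ (1 / 2 : ℝ) * P ^ (1 / 2 : ℝ)) ^ (1 / 2 : ℝ) * e ^ (1 / 2 : ℝ)) :
    (W₁ ^ (1 / 2 : ℝ) * K₁ * W₂ ^ (1 / 2 : ℝ)) * K₂ ≤
      (W₁ * (P * e)) ^ (1 / 2 : ℝ) * (W₂ * (Q * e)) ^ (1 / 2 : ℝ) := by
  have hh : (0:ℝ) ≤ 1 / 2 := by norm_num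
  rw [mul_comm (Q ^ (1 / 2 : ℝ)) (P ^ (1 / 2 : ℝ))] at h2
  have h3 := mul_le_mul' h1 h2
  have e1 : (P ^ (1 / 2 : ℝ) * Q ^ (1 / 2 : ℝ)) ^ (1 / 2 : ℝ) * e ^ (1 / 2 : ℝ) *
      ((P ^ (1 / 2 : ℝ) * Q ^ (1 / 2 : ℝ)) ^ (1 / 2 : ℝ) * e ^ (1 / 2 : ℝ)) =
      P ^ (1 / 2 : ℝ) * Q ^ (1 / 2 : ℝ) * e := by
    rw [mul_mul_mul_comm, half_mul, half_mul]
  rw [e1] at h3
  have e2 : (W₁ ^ (1 / 2 : ℝ) * K₁ * W₂ ^ (1 / 2 : ℝ)) * K₂ =
      (W₁ ^ (1 / 2 : ℝ) * W₂ ^ (1 / 2 : ℝ)) * (K₁ * K₂) := by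
    rw [mul_assoc (W₁ ^ (1 / 2 : ℝ)) K₁, mul_comm K₁, mul_assoc, mul_assoc, mul_assoc]
  rw [e2]
  refine (mul_le_mul' le_rfl h3).trans (le_of_eq ?_)
  rw [ENNReal.mul_rpow_of_nonneg _ _ hh, ENNReal.mul_rpow_of_nonneg _ _ hh,
    ENNReal.mul_rpow_of_nonneg _ _ hh, ENNReal.mul_rpow_of_nonneg _ _ hh]
  calc W₁ ^ (1 / 2 : ℝ) * W₂ ^ (1 / 2 : ℝ) * (P ^ (1 / 2 : ℝ) * Q ^ (1 / 2 : ℝ) * e)
      = W₁ ^ (1 / 2 : ℝ) * W₂ ^ (1 / 2 : ℝ) * (P ^ (1 / 2 : ℝ) * Q ^ (1 / 2 : ℝ) *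
        (e ^ (1 / 2 : ℝ) * e ^ (1 / 2 : ℝ))) := by rw [half_mul]
    _ = _ := by ring

/-- The last step, for abstract kernels. -/
theorem last_step {X : Type} [MeasurableSpace X] (μ : Measure X) [SFinite μ] {W : X → ℝ≥0∞}
    (hW : Measurable W) {P e K : X → X → ℝ≥0∞} (hP : Measurable (Function.uncurry P))
    (he : Measurable (Function.uncurry e)) (hes : ∀ x y, e x y = e y x)
    (hK : ∀ x y, K x y ≤ (P x y ^ (1 / 2 : ℝ) * P y x ^ (1 / 2 : ℝ)) ^ (1 / 2 : ℝ) *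
      e x y ^ (1 / 2 : ℝ)) (R : ℝ≥0∞) (hR : ∀ x, ∫⁻ y, P x y * e x y ∂μ ≤ R) :
    T 1 X _ μ (fun x => W x ^ (1 / 2 : ℝ)) K ≤ R * ∫⁻ x, W x ∂μ := by
  set a : X × X → ℝ≥0∞ := fun p => (W p.1 * (P p.1 p.2 * e p.1 p.2)) ^ (1 / 2 : ℝ) with ha
  have hm0 : Measurable fun p : X × X => W p.1 * (P p.1 p.2 * e p.1 p.2) :=
    (hW.comp measurable_fst).mul (hP.mul he)
  have ham : Measurable a := hm0.pow_const _
  have hint : ∀ p : X × X, (W p.1 ^ (1 / 2 : ℝ) * K p.1 p.2 * W p.2 ^ (1 / 2 : ℝ)) * K p.2 p.1 ≤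
      a p * a p.swap := by
    intro p
    have h2 := hK p.2 p.1
    rw [hes p.2 p.1] at h2
    have h3 := alg (W₁ := W p.1) (W₂ := W p.2) (hK p.1 p.2) h2
    refine h3.trans (le_of_eq ?_)
    simp only [ha, Prod.fst_swap, Prod.snd_swap]
    rw [hes p.2 p.1]
  have hA : ∫⁻ p, a p ^ 2 ∂(μ.prod μ) ≤ R * ∫⁻ x, W x ∂μ := by
    have e1 : ∀ p, a p ^ 2 = W p.1 * (P p.1 p.2 * e p.1 p.2) := fun p => by
      rw [sq]; exact half_mul _
    simp only [e1]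
    rw [lintegral_prod _ hm0.aemeasurable]
    calc ∫⁻ x, ∫⁻ y, W x * (P x y * e x y) ∂μ ∂μ
        = ∫⁻ x, W x * ∫⁻ y, P x y * e x y ∂μ ∂μ := by
          refine lintegral_congr fun x => ?_
          rw [lintegral_const_mul]
          exact (hP.comp (measurable_const.prodMk measurable_id)).mul
            (he.comp (measurable_const.prodMk measurable_id))
      _ ≤ ∫⁻ x, W x * R ∂μ := lintegral_mono fun x => mul_le_mul' le_rfl (hR x)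
      _ = R * ∫⁻ x, W x ∂μ := by rw [lintegral_mul_const _ hW, mul_comm]
  have hC : ∫⁻ p, a p.swap ^ 2 ∂(μ.prod μ) ≤ R * ∫⁻ x, W x ∂μ := by
    have e2 : ∫⁻ p, a p.swap ^ 2 ∂(μ.prod μ) = ∫⁻ p, a p ^ 2 ∂(μ.prod μ) :=
      lintegral_prod_swap (μ := μ) (ν := μ) (fun q => a q ^ 2)
    rw [e2]
    exact hA
  have hcm : Measurable fun p : X × X => a p.swap := ham.comp measurable_swap
  have h2 : 2 * ∫⁻ p, a p * a p.swap ∂(μ.prod μ) ≤ 2 * (R * ∫⁻ x, W x ∂μ) := by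
    have hacm : Measurable fun p : X × X => a p * a p.swap := ham.mul hcm
    rw [← lintegral_const_mul _ hacm]
    calc ∫⁻ p, 2 * (a p * a p.swap) ∂(μ.prod μ) ≤ ∫⁻ p, (a p ^ 2 + a p.swap ^ 2) ∂(μ.prod μ) :=
          lintegral_mono fun p => two_mul_le _ _
      _ = ∫⁻ p, a p ^ 2 ∂(μ.prod μ) + ∫⁻ p, a p.swap ^ 2 ∂(μ.prod μ) :=
          lintegral_add_left (ham.pow_const 2) _
      _ ≤ _ := (add_le_add hA hC).trans (le_of_eq (two_mul _).symm)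
  show ∫⁻ p, (W p.1 ^ (1 / 2 : ℝ) * K p.1 p.2 * W p.2 ^ (1 / 2 : ℝ)) * K p.2 p.1 ∂(μ.prod μ) ≤ _
  exact (lintegral_mono hint).trans
    ((ENNReal.mul_le_mul_iff_right (by norm_num) (by norm_num)).1 h2)

theorem t_TB (hH : S_HOL) (hPB : S_PB) (hPC : S_PC) : S_TB := by
  intro d Ω hΩ b w hb hw l τ hτ
  have hκm := Pool.Agent.L7h65.GF.kf_meas (1 / 2) τ hb
  have hκ₁m := Pool.Agent.L7h65.GF.kf_meas 1 τ hb
  have hIt := hH d Ω (1 / 2) τ (by norm_num) (by norm_num) hτ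
    (fun x y => ENNReal.ofReal (kf 1 τ b x y)) (fun x y => ENNReal.ofReal (kf (1 / 2) τ b x y))
    hκ₁m hκm (kf_half_le τ b) l
  have hPC' := hPC d l τ b hτ hb
  have hwm : Measurable fun x => ENNReal.ofReal (w x) ^ (((2:ℝ) ^ (l + 1))⁻¹) :=
    hw.ennreal_ofReal.pow_const _
  have hWp : (fun x => (ENNReal.ofReal (w x) ^ (((2:ℝ) ^ (l + 1))⁻¹)) ^ (2 ^ l)) =
      fun x => ENNReal.ofReal (w x) ^ (1 / 2 : ℝ) := by
    funext x
    rw [← ENNReal.rpow_natCast, ← ENNReal.rpow_mul]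
    congr 1
    push_cast
    rw [pow_succ]
    field_simp
  have h1 := T_halves (volume.restrict Ω) hwm hκm l 1
  rw [hWp, show 1 + l = l + 1 by ring] at h1
  refine h1.trans ?_
  have hte : (((2 ^ l : ℕ) : ℝ) * τ) = 2 ^ l * τ := by push_cast; ring
  refine last_step (volume.restrict Ω) hw.ennreal_ofReal (PP_meas (2 ^ l) τ hb) (E_meas (2 ^ l * τ))
    (E_symm _) (fun x y => ?_) _ (fun x => ?_)
  · refine (hIt x y).trans ?_
    rw [show (1 - 1 / 2 : ℝ) = 1 / 2 by norm_num]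
    refine mul_le_mul' (ENNReal.rpow_le_rpow ?_ (by norm_num)) le_rfl
    exact (It_restrict_le volume Ω _ l x y).trans (hPC' x y)
  · have h := hPB d (2 ^ l) τ b Nat.one_le_two_pow hτ hb x
    rw [hte] at h
    refine (setLIntegral_le_lintegral _ _).trans (h.trans (le_of_eq ?_))
    congr 5
    rw [pow_succ]
    ring

end Pool.Agent.L7h99.GF
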