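import Pool.Agent.L7h99.GF.Stm
import Pool.Agent.L7h23.GF.Asf
import Pool.Agent.Helper717.LT.P_H_approx
import Pool.Agent.Helper717.LT.P_split_complex
import Pool.Agent.Helper717.LT.P_gram_complex

set_option autoImplicit false

/-!
# Project GF, part WRF: from smooth real families to orthonormal systems in `H¹`
-/

open MeasureTheory Set Filter Topology Real
open scoped Matrix Convolution

namespace Pool.Agent.L7h99.GF

open LTd Pool.Agent.L7h99.LS Pool.Agent.L7h99.SC

/-- Smooth approximation with convergence of the gradients almost everywhere. -/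
theorem H_approx2 {d n : ℕ} (f : Fin n → (Fin d → ℝ) → ℝ) (g : Fin n → Fin d → (Fin d → ℝ) → ℝ)
    (hf : ∀ i, WGrad (f i) (g i)) :
    ∃ F : ℕ → Fin n → (Fin d → ℝ) → ℝ, (∀ k i, ContDiff ℝ 1 (F k i)) ∧
      (∀ k i, HasCompactSupport (F k i)) ∧
      (∀ k (v : Fin n → ℝ), ∫ x, (∑ i, v i * F k i x) ^ 2 ≤ ∫ x, (∑ i, v i * f i x) ^ 2) ∧
      (∀ᵐ x, ∀ i, Tendsto (fun k => F k i x) atTop (𝓝 (f i x))) ∧
      (∀ᵐ x, ∀ i j, Tendsto (fun k => pd j (F k i) x) atTop (𝓝 (g i j x))) ∧
      ∀ k : ℕ, ∫ x, ∑ j, ∑ i, pd j (F k i) x ^ 2 ≤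
        (∫ x, ∑ j, ∑ i, g i j x ^ 2) + 1 / ((k:ℝ) + 1) := by
  obtain ⟨φ, hφ⟩ := conv_ae (d := d)
  obtain ⟨F0, hF0⟩ : ∃ F0 : ℕ → Fin n → (Fin d → ℝ) → ℝ, F0 = fun k i =>
    ((φ k).normed volume ⋆[ContinuousLinearMap.lsmul ℝ ℝ, volume] (f i)) := ⟨_, rfl⟩
  have hF0d : ∀ k i, ContDiff ℝ 1 (F0 k i) := by
    intro k i
    rw [hF0]
    exact (conv_diff (φ k) (hf i)).1
  have hpd : ∀ k i j x, pd j (F0 k i) x =
      ((φ k).normed volume ⋆[ContinuousLinearMap.lsmul ℝ ℝ, volume] (g i j)) x := by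
    intro k i j x
    rw [hF0]
    exact (conv_diff (φ k) (hf i)).2 j x
  have hI2 : ∀ k i, Integrable fun x => F0 k i x ^ 2 := by
    intro k i
    rw [hF0]
    exact (conv_L2 (φ k) (hf i).f2).2.1
  have hI3 : ∀ k j i, Integrable fun x => pd j (F0 k i) x ^ 2 := by
    intro k j i
    simp only [hpd]
    exact (conv_L2 (φ k) ((hf i).g2 j)).2.1
  have hcut := fun k : ℕ => cut_energy (F0 k) (hF0d k) (hI2 k) (hI3 k)
    (ε := 1 / ((k:ℝ) + 1)) (by positivity) (k:ℝ)
  choose χ hχ1 hχ2 hχ3 hχ4 hχ5 using hcut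
  refine ⟨fun k i y => χ k y * F0 k i y, ?_, ?_, ?_, ?_, ?_, ?_⟩
  · intro k i
    exact (hχ1 k).mul (hF0d k i)
  · intro k i
    exact (hχ2 k).mul_right
  · intro k v
    have hsum2 : MemLp (fun y => ∑ i, v i * f i y) 2 volume :=
      memLp_finsetSum _ (fun i _ => (hf i).f2.const_mul (v i))
    have hconv := conv_L2 (φ k) hsum2
    have heq : ∀ x, ((φ k).normed volume ⋆[ContinuousLinearMap.lsmul ℝ ℝ, volume]
        fun y => ∑ i, v i * f i y) x = ∑ i, v i * F0 k i x := by
      intro x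
      rw [hF0]
      exact conv_sum (φ k) f (fun i => (hf i).f2) v x
    have hint := hconv.2.1
    have hle := hconv.2.2
    simp only [heq] at hint hle
    refine le_trans ?_ hle
    apply integral_mono_of_nonneg
    · exact Eventually.of_forall fun x => sq_nonneg _
    · exact hint
    · refine Eventually.of_forall fun x => ?_
      simp only
      have e : ∑ i, v i * (χ k x * F0 k i x) = χ k x * ∑ i, v i * F0 k i x := by
        rw [Finset.mul_sum]
        exact Finset.sum_congr rfl fun i _ => by ring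
      rw [e, mul_pow]
      have h1 : χ k x ^ 2 ≤ 1 := pow_le_one₀ (hχ3 k x).1 (hχ3 k x).2
      exact mul_le_of_le_one_left (sq_nonneg _) h1
  · have hall : ∀ᵐ x, ∀ i, Tendsto (fun k => F0 k i x) atTop (𝓝 (f i x)) := by
      rw [ae_all_iff]
      intro i
      rw [hF0]
      exact hφ (f i) (hf i).f2
    filter_upwards [hall] with x hx i
    refine (hx i).congr' ?_
    obtain ⟨N, hN⟩ := exists_nat_ge ‖x‖
    filter_upwards [eventually_ge_atTop N] with k hk
    have hk' : ‖x‖ ≤ (k:ℝ) := le_trans hN (by exact_mod_cast hk)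
    rw [hχ4 k x hk', one_mul]
  · have hall : ∀ᵐ x, ∀ i j, Tendsto (fun k => pd j (F0 k i) x) atTop (𝓝 (g i j x)) := by
      rw [ae_all_iff]
      intro i
      rw [ae_all_iff]
      intro j
      simp only [hpd]
      exact hφ (g i j) ((hf i).g2 j)
    filter_upwards [hall] with x hx i j
    refine (hx i j).congr' ?_
    obtain ⟨N, hN⟩ := exists_nat_gt ‖x‖
    filter_upwards [eventually_ge_atTop N] with k hk
    have hk' : ‖x‖ < (k:ℝ) := lt_of_lt_of_le hN (by exact_mod_cast hk)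
    have hev : (fun y => χ k y * F0 k i y) =ᶠ[𝓝 x] F0 k i := by
      have ho : {y : Fin d → ℝ | ‖y‖ < (k:ℝ)} ∈ 𝓝 x :=
        (isOpen_lt continuous_norm continuous_const).mem_nhds hk'
      filter_upwards [ho] with y hy
      rw [hχ4 k y (le_of_lt hy), one_mul]
    simp only [pd]
    rw [hev.fderiv_eq]
  · intro k
    refine le_trans (hχ5 k) ?_
    refine add_le_add ?_ le_rfl
    have hIg : ∀ j i, Integrable fun x => g i j x ^ 2 := fun j i => ((hf i).g2 j).integrable_sq
    rw [integral_finsetSum _ (fun j _ => integrable_finsetSum _ (fun i _ => hI3 k j i)),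
      integral_finsetSum _ (fun j _ => integrable_finsetSum _ (fun i _ => hIg j i))]
    refine Finset.sum_le_sum fun j _ => ?_
    rw [integral_finsetSum _ (fun i _ => hI3 k j i), integral_finsetSum _ (fun i _ => hIg j i)]
    refine Finset.sum_le_sum fun i _ => ?_
    simp only [hpd]
    exact (conv_L2 (φ k) ((hf i).g2 j)).2.2

/-- The partial derivatives of the density. -/
theorem pd_den {d n : ℕ} {F : Fin n → (Fin d → ℝ) → ℝ} (hF : ∀ i, ContDiff ℝ 1 (F i))
    (k : Fin d) (x : Fin d → ℝ) : pd k (den F) x = 2 * ∑ i, F i x * pd k (F i) x := by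
  have hd : ∀ i, DifferentiableAt ℝ (F i) x := fun i => (hF i).differentiable one_ne_zero x
  have h1 : HasFDerivAt (den F) (∑ i, (2 * F i x) • fderiv ℝ (F i) x) x := by
    have := HasFDerivAt.fun_sum (u := Finset.univ)
      (A := fun i y => F i y ^ 2) (A' := fun i => (2 * F i x) • fderiv ℝ (F i) x) (x := x)
      (fun i _ => by
        have h2 := (hd i).hasFDerivAt.pow 2
        simpa using h2)
    exact this
  unfold LTd.pd
  rw [h1.fderiv]
  simp only [FunLike.coe_sum, Finset.sum_apply, FunLike.coe_smul,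
    Pi.smul_apply, smul_eq_mul]
  rw [Finset.mul_sum]
  exact Finset.sum_congr rfl fun i _ => by ring

theorem H_real2 (d : ℕ) (K c : ℝ) (hK : 0 < K) (hc : 0 < c)
    (hcore : ∀ (n : ℕ) (F : Fin n → (Fin d → ℝ) → ℝ), (∀ i, ContDiff ℝ 1 (F i)) →
    (∀ i, HasCompactSupport (F i)) → Gram1 F →
    K * (∫ x, den F x ^ (1 + 2 / (d:ℝ))) + c / 4 * fis0 F ≤ kin F) (n : ℕ)
    (f : Fin n → (Fin d → ℝ) → ℝ)
    (g : Fin n → Fin d → (Fin d → ℝ) → ℝ) (hf : ∀ i, WGrad (f i) (g i))
    (hG : ∀ v : Fin n → ℝ, ∫ x, (∑ i, v i * f i x) ^ 2 ≤ ∑ i, v i ^ 2) :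
    Integrable (fun x => (∑ i, f i x ^ 2) ^ (1 + 2 / (d : ℝ))) ∧
    Integrable (fun x => ∑ k, (∑ i, f i x * g i k x) ^ 2 / ∑ i, f i x ^ 2) ∧
    K * (∫ x, (∑ i, f i x ^ 2) ^ (1 + 2 / (d : ℝ))) +
      c * (∫ x, ∑ k, (∑ i, f i x * g i k x) ^ 2 / ∑ i, f i x ^ 2) ≤
      ∫ x, ∑ j, ∑ i, g i j x ^ 2 := by
  have hp : 0 < 1 + 2 / (d : ℝ) := by positivity
  set p := 1 + 2 / (d : ℝ) with hpdef
  set E := ∫ x, ∑ j, ∑ i, g i j x ^ 2 with hE
  have hE0 : 0 ≤ E := integral_nonneg fun x =>
    Finset.sum_nonneg fun j _ => Finset.sum_nonneg fun i _ => sq_nonneg _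
  obtain ⟨F, hF1, hF2, hF3, hF4, hF4', hF5⟩ := H_approx2 f g hf
  -- the two densities
  obtain ⟨R, hR⟩ : ∃ R : (Fin d → ℝ) → ℝ, R = fun x => (∑ i, f i x ^ 2) ^ p := ⟨_, rfl⟩
  obtain ⟨Q, hQ⟩ : ∃ Q : (Fin d → ℝ) → ℝ, Q = fun x =>
    ∑ k, (∑ i, f i x * g i k x) ^ 2 / ∑ i, f i x ^ 2 := ⟨_, rfl⟩
  have hden0 : ∀ k x, 0 ≤ den (F k) x := fun k x => Finset.sum_nonneg fun i _ => sq_nonneg _
  have hcont : ∀ k, Continuous fun x => den (F k) x ^ p := by
    intro k
    refine Continuous.rpow_const ?_ (fun x => Or.inr hp.le)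
    exact continuous_finsetSum _ fun i _ => ((hF1 k i).continuous.pow 2)
  have hcs : ∀ k, HasCompactSupport fun x => den (F k) x ^ p := by
    intro k
    refine HasCompactSupport.intro (K := ⋃ i, tsupport (F k i))
      (isCompact_iUnion fun i => hF2 k i) ?_
    intro x hx
    have : ∀ i, F k i x = 0 := by
      intro i
      by_contra h
      exact hx (mem_iUnion.2 ⟨i, subset_tsupport _ h⟩)
    simp only [den, this]
    simp [Real.zero_rpow hp.ne']
  have hint : ∀ k, Integrable fun x => den (F k) x ^ p := fun k =>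
    (hcont k).integrable_of_hasCompactSupport (hcs k)
  have hintQ : ∀ k, Integrable fun x => ∑ j, pd j (den (F k)) x ^ 2 / den (F k) x := fun k =>
    Pool.Agent.L7h23.GF.fd_integrable (hF1 k) (hF2 k)
  have hnn : ∀ k x, 0 ≤ den (F k) x ^ p := fun k x => Real.rpow_nonneg (hden0 k x) _
  have hnnQ : ∀ k x, 0 ≤ ∑ j, pd j (den (F k)) x ^ 2 / den (F k) x := fun k x =>
    Finset.sum_nonneg fun j _ => div_nonneg (sq_nonneg _) (hden0 k x)
  have hR0 : ∀ x, 0 ≤ R x := fun x => by
    rw [hR]; exact Real.rpow_nonneg (Finset.sum_nonneg fun i _ => sq_nonneg _) _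
  have hQ0 : ∀ x, 0 ≤ Q x := fun x => by
    rw [hQ]
    exact Finset.sum_nonneg fun j _ => div_nonneg (sq_nonneg _)
      (Finset.sum_nonneg fun i _ => sq_nonneg _)
  have hbound : ∀ k : ℕ, ∫ x, (K * den (F k) x ^ p +
      c / 4 * ∑ j, pd j (den (F k)) x ^ 2 / den (F k) x) ≤ E + 1 / ((k:ℝ) + 1) := by
    intro k
    rw [integral_add ((hint k).const_mul _) ((hintQ k).const_mul _), integral_const_mul,
      integral_const_mul]
    exact (hcore n (F k) (hF1 k) (hF2 k) (fun v => (hF3 k v).trans (hG v))).trans (hF5 k)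
  have hsumI : ∀ k, Integrable (fun x => K * den (F k) x ^ p +
      c / 4 * ∑ j, pd j (den (F k)) x ^ 2 / den (F k) x) := fun k =>
    ((hint k).const_mul K).add ((hintQ k).const_mul (c / 4))
  have hlim : ∀ᵐ x, Tendsto (fun k => den (F k) x) atTop (𝓝 (∑ i, f i x ^ 2)) := by
    filter_upwards [hF4] with x hx
    exact tendsto_finsetSum _ fun i _ => (hx i).pow 2
  have hlimR : ∀ᵐ x, Tendsto (fun k => den (F k) x ^ p) atTop (𝓝 (R x)) := by
    filter_upwards [hlim] with x hx
    rw [hR]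
    exact hx.rpow_const (Or.inr hp.le)
  have hlimQ : ∀ᵐ x, 0 < ∑ i, f i x ^ 2 →
      Tendsto (fun k => ∑ j, pd j (den (F k)) x ^ 2 / den (F k) x) atTop (𝓝 (4 * Q x)) := by
    filter_upwards [hlim, hF4, hF4'] with x hx h4 h4' hpos
    have e : 4 * Q x = ∑ j, (2 * ∑ i, f i x * g i j x) ^ 2 / ∑ i, f i x ^ 2 := by
      rw [hQ]
      simp only
      rw [Finset.mul_sum]
      exact Finset.sum_congr rfl fun j _ => by ring
    rw [e]
    refine tendsto_finsetSum _ fun j _ => ?_
    refine Tendsto.div ?_ hx hpos.ne'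
    refine Tendsto.pow ?_ 2
    simp only [pd_den (hF1 _)]
    refine Tendsto.const_mul _ (tendsto_finsetSum _ fun i _ => ?_)
    exact (h4 i).mul (h4' i j)
  have hmR : AEStronglyMeasurable R volume :=
    aestronglyMeasurable_of_tendsto_ae atTop (fun k => (hint k).aestronglyMeasurable) hlimR
  have hmf : ∀ i, AEMeasurable (f i) volume := fun i => (hf i).f2.1.aemeasurable
  have hmg : ∀ i k, AEMeasurable (g i k) volume := fun i k => ((hf i).g2 k).1.aemeasurable
  have hmQ : AEStronglyMeasurable Q volume := by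
    rw [hQ]
    refine AEMeasurable.aestronglyMeasurable ?_
    refine Finset.aemeasurable_fun_sum _ fun k _ => ?_
    refine AEMeasurable.div ?_ ?_
    · exact (Finset.aemeasurable_fun_sum _ fun i _ => (hmf i).mul (hmg i k)).pow_const 2
    · exact Finset.aemeasurable_fun_sum _ fun i _ => (hmf i).pow_const 2
  have hfatou : ∫⁻ x, ENNReal.ofReal (K * R x + c * Q x) ≤ ENNReal.ofReal E := by
    calc ∫⁻ x, ENNReal.ofReal (K * R x + c * Q x)
        ≤ ∫⁻ x, liminf (fun k => ENNReal.ofReal (K * den (F k) x ^ p +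
            c / 4 * ∑ j, pd j (den (F k)) x ^ 2 / den (F k) x)) atTop := by
          apply lintegral_mono_ae
          filter_upwards [hlimR, hlimQ] with x hxR hxQ
          rcases eq_or_lt_of_le (Finset.sum_nonneg fun i (_ : i ∈ Finset.univ) =>
            sq_nonneg (f i x)) with h0 | h0
          · have e1 : R x = 0 := by
              rw [hR]; simp only; rw [← h0, Real.zero_rpow hp.ne']
            have e2 : Q x = 0 := by
              rw [hQ]; simp only; rw [← h0]; simp
            rw [e1, e2]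
            simp
          · have h1 := ((hxR.const_mul K).add ((hxQ h0).const_mul (c / 4)))
            have e3 : K * R x + c / 4 * (4 * Q x) = K * R x + c * Q x := by ring
            rw [e3] at h1
            exact (((ENNReal.continuous_ofReal.tendsto _).comp h1).liminf_eq).ge
      _ ≤ liminf (fun k => ∫⁻ x, ENNReal.ofReal (K * den (F k) x ^ p +
            c / 4 * ∑ j, pd j (den (F k)) x ^ 2 / den (F k) x)) atTop :=
          lintegral_liminf_le' fun k => (hsumI k).1.aemeasurable.ennreal_ofReal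
      _ ≤ liminf (fun k : ℕ => ENNReal.ofReal (E + 1 / ((k:ℝ) + 1))) atTop := by
          refine liminf_le_liminf (Eventually.of_forall fun k => ?_)
          change ∫⁻ x, ENNReal.ofReal (K * den (F k) x ^ p +
            c / 4 * ∑ j, pd j (den (F k)) x ^ 2 / den (F k) x) ≤ _
          rw [← ofReal_integral_eq_lintegral_ofReal (hsumI k)
            (Eventually.of_forall fun x => add_nonneg (mul_nonneg hK.le (hnn k x))
              (mul_nonneg (by linarith) (hnnQ k x)))]
          exact ENNReal.ofReal_le_ofReal (hbound k)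
      _ = ENNReal.ofReal E := by
          apply Tendsto.liminf_eq
          apply (ENNReal.continuous_ofReal.tendsto _).comp
          have h1 : Tendsto (fun k : ℕ => E + 1 / ((k:ℝ) + 1)) atTop (𝓝 (E + 0)) :=
            tendsto_one_div_add_atTop_nhds_zero_nat.const_add E
          rwa [add_zero] at h1
  have hm : AEStronglyMeasurable (fun x => K * R x + c * Q x) volume :=
    (hmR.const_mul K).add (hmQ.const_mul c)
  have hnn' : ∀ x, 0 ≤ K * R x + c * Q x := fun x =>
    add_nonneg (mul_nonneg hK.le (hR0 x)) (mul_nonneg hc.le (hQ0 x))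
  have hI : Integrable (fun x => K * R x + c * Q x) := by
    refine ⟨hm, ?_⟩
    rw [hasFiniteIntegral_iff_ofReal (Eventually.of_forall hnn')]
    exact lt_of_le_of_lt hfatou ENNReal.ofReal_lt_top
  have hIR : Integrable R := by
    refine (hI.const_mul K⁻¹).mono' hmR (Eventually.of_forall fun x => ?_)
    rw [Real.norm_of_nonneg (hR0 x), mul_add, ← mul_assoc, inv_mul_cancel₀ hK.ne', one_mul]
    have := mul_nonneg (inv_nonneg.2 hK.le) (mul_nonneg hc.le (hQ0 x))
    linarith
  have hIQ : Integrable Q := by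
    refine (hI.const_mul c⁻¹).mono' hmQ (Eventually.of_forall fun x => ?_)
    rw [Real.norm_of_nonneg (hQ0 x), mul_add, ← mul_assoc c⁻¹ c, inv_mul_cancel₀ hc.ne', one_mul]
    have := mul_nonneg (inv_nonneg.2 hc.le) (mul_nonneg hK.le (hR0 x))
    linarith
  have hle : ∫ x, (K * R x + c * Q x) ≤ E := by
    rw [integral_eq_lintegral_of_nonneg_ae (Eventually.of_forall hnn') hm]
    exact ENNReal.toReal_le_of_le_ofReal hE0 hfatou
  rw [integral_add (hIR.const_mul _) (hIQ.const_mul _), integral_const_mul,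
    integral_const_mul] at hle
  subst hR
  subst hQ
  exact ⟨hIR, hIQ, hle⟩

theorem t_WRF : S_WRF := by
  intro d K c hd hK hc hcore N u g hu ho
  have hsq : ∀ z : ℂ, ‖z‖ ^ 2 = z.re ^ 2 + z.im ^ 2 := by
    intro z
    rw [Complex.sq_norm, Complex.normSq_apply]; ring
  let F : Fin (N + N) → (Fin d → ℝ) → ℝ :=
    Fin.append (fun i x => (u i x).re) (fun i x => (u i x).im)
  let G : Fin (N + N) → Fin d → (Fin d → ℝ) → ℝ :=
    Fin.append (fun i k x => (g i k x).re) (fun i k x => (g i k x).im)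
  have hFl : ∀ i, F (Fin.castAdd N i) = fun x => (u i x).re := fun i => Fin.append_left _ _ i
  have hFr : ∀ i, F (Fin.natAdd N i) = fun x => (u i x).im := fun i => Fin.append_right _ _ i
  have hGl : ∀ i, G (Fin.castAdd N i) = fun k x => (g i k x).re := fun i => Fin.append_left _ _ i
  have hGr : ∀ i, G (Fin.natAdd N i) = fun k x => (g i k x).im := fun i => Fin.append_right _ _ i
  have hW : ∀ i, WGrad (F i) (G i) := by
    intro i
    refine Fin.addCases (fun i => ?_) (fun i => ?_) i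
    · rw [hFl, hGl]
      exact (split_complex (hu i)).1
    · rw [hFr, hGr]
      exact (split_complex (hu i)).2
  have hG : ∀ v : Fin (N + N) → ℝ, ∫ x, (∑ i, v i * F i x) ^ 2 ≤ ∑ i, v i ^ 2 := by
    intro v
    have h1 := gram_complex u (fun i => (hu i).f2) ho (fun i => v (Fin.castAdd N i))
      (fun i => v (Fin.natAdd N i))
    have h2 : ∀ x, ∑ i, v i * F i x = ∑ i : Fin N, (v (Fin.castAdd N i) * (u i x).re +
        v (Fin.natAdd N i) * (u i x).im) := by
      intro x
      rw [Fin.sum_univ_add, Finset.sum_add_distrib]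
      simp only [hFl, hFr]
    have h3 : ∑ i, v i ^ 2 = ∑ i : Fin N, (v (Fin.castAdd N i) ^ 2 + v (Fin.natAdd N i) ^ 2) := by
      rw [Fin.sum_univ_add, Finset.sum_add_distrib]
    simp only [h2]
    rw [h3]
    exact h1
  have hH := H_real2 d K c hK hc hcore (N + N) F G hW hG
  have hFs : ∀ x, ∑ i, F i x ^ 2 = ∑ i, ‖u i x‖ ^ 2 := by
    intro x
    rw [Fin.sum_univ_add, ← Finset.sum_add_distrib]
    simp only [hFl, hFr, hsq]
  have hGs : ∀ x, ∑ j, ∑ i, G i j x ^ 2 = ∑ i, ∑ j, ‖g i j x‖ ^ 2 := by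
    intro x
    rw [Finset.sum_comm, Fin.sum_univ_add, ← Finset.sum_add_distrib]
    refine Finset.sum_congr rfl fun i _ => ?_
    rw [← Finset.sum_add_distrib]
    simp only [hGl, hGr, hsq]
  have hFG : ∀ x k, ∑ i, F i x * G i k x = ∑ i, ((starRingEnd ℂ) (u i x) * g i k x).re := by
    intro x k
    rw [Fin.sum_univ_add, ← Finset.sum_add_distrib]
    refine Finset.sum_congr rfl fun i _ => ?_
    simp only [hFl, hFr, hGl, hGr, Complex.mul_re, Complex.conj_re, Complex.conj_im]
    ring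
  simp only [hFs, hGs, hFG] at hH
  refine ⟨hH.1, hH.2.1, ?_⟩
  have hI : ∀ i k, Integrable (fun x => ‖g i k x‖ ^ 2) := by
    intro i k
    have := (hu i).g2 k
    exact this.integrable_norm_pow two_ne_zero
  have hint : ∫ x, ∑ i, ∑ j, ‖g i j x‖ ^ 2 = ∑ i, ∑ k, ∫ x, ‖g i k x‖ ^ 2 := by
    rw [integral_finsetSum _ (fun i _ => integrable_finsetSum _ (fun k _ => hI i k))]
    refine Finset.sum_congr rfl fun i _ => ?_
    rw [integral_finsetSum _ (fun k _ => hI i k)]
  rw [hint] at hH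
  exact hH.2.2

end Pool.Agent.L7h99.GF
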